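import Pool.Agent.LibCov80.Norm

/-! Existence of the normalisation of a normal projective variety in a finite extension of its
function field. -/

open scoped Classical

namespace Pool.Agent.LibCov80

open Pool.Agent.LibGMM Pool.Agent.LibGMC

section

variable {k : Type} [Field k] [Algebra ℂ k] {ι : Type}

theorem ratio_mem_chart (g : ι → kˣ) (i j : ι) : (g j : k) / g i ∈ chart g i :=
  Algebra.subset_adjoin ⟨j, rfl⟩

/-- An element of the chart `c` is in the other charts after multiplication with a power. -/
theorem chart_shift (g : ι → kˣ) (c : ι) {a : k} (ha : a ∈ chart g c) :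
    ∃ M : ℕ, ∀ m ≥ M, ∀ d, a * ((g c : k) / g d) ^ m ∈ chart g d := by
  unfold chart at ha
  induction ha using Algebra.adjoin_induction with
  | mem x hx =>
    obtain ⟨j, rfl⟩ := hx
    refine ⟨1, fun m hm d => ?_⟩
    obtain ⟨m, rfl⟩ : ∃ m', m = m' + 1 := ⟨m - 1, by omega⟩
    have h1 : (g j : k) / g c * ((g c : k) / g d) ^ (m + 1) =
        (g j : k) / g d * ((g c : k) / g d) ^ m := by
      have := (g c).ne_zero
      have := (g d).ne_zero
      rw [pow_succ]
      field_simp
    change (g j : k) / g c * ((g c : k) / g d) ^ (m + 1) ∈ chart g d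
    rw [h1]
    exact (chart g d).mul_mem (ratio_mem_chart g d j) ((chart g d).pow_mem (ratio_mem_chart g d c) _)
  | algebraMap r =>
    exact ⟨0, fun m _ d => (chart g d).mul_mem ((chart g d).algebraMap_mem r)
      ((chart g d).pow_mem (ratio_mem_chart g d c) _)⟩
  | add x y _ _ h1 h2 =>
    obtain ⟨M, hM⟩ := h1
    obtain ⟨M', hM'⟩ := h2
    refine ⟨max M M', fun m hm d => ?_⟩
    rw [add_mul]
    exact (chart g d).add_mem (hM m (by omega) d) (hM' m (by omega) d)
  | mul x y _ _ h1 h2 =>
    obtain ⟨M, hM⟩ := h1
    obtain ⟨M', hM'⟩ := h2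
    refine ⟨M + M', fun m hm d => ?_⟩
    obtain ⟨n, rfl⟩ := Nat.exists_eq_add_of_le hm
    have h3 : x * y * ((g c : k) / g d) ^ (M + M' + n) =
        (x * ((g c : k) / g d) ^ M) * (y * ((g c : k) / g d) ^ (M' + n)) := by
      rw [pow_add, pow_add, pow_add]; ring
    rw [h3]
    exact (chart g d).mul_mem (hM M le_rfl d) (hM' _ (by omega) d)

variable {K : Type} [Field K] [Algebra k K]

theorem integral_lift {R : Type} [CommRing R] [Algebra R K] (p : Polynomial K) (hp : p.Monic)
    (hc : ∀ n, p.coeff n ∈ Set.range (algebraMap R K)) (y : K) (hy : p.eval y = 0) :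
    IsIntegral R y := by
  obtain ⟨q, hq, -, hqm⟩ := Polynomial.lifts_and_natDegree_eq_and_monic
    ((Polynomial.lifts_iff_coeff_lifts (f := algebraMap R K) p).2 hc) hp
  refine ⟨q, hqm, ?_⟩
  rw [← hq, Polynomial.eval_map] at hy
  exact hy

/-- An element of `K` which is integral over the chart `c` is integral over the other charts after
multiplication with a power. -/
theorem integral_shift (g : ι → kˣ) (c : ι) {b : K} (hb : IsIntegral (chart g c) b) :
    ∃ M : ℕ, ∀ m ≥ M, ∀ d, IsIntegral (chart g d)
      (b * algebraMap k K (((g c : k) / g d) ^ m)) := by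
  obtain ⟨f, hf, hfb⟩ := hb
  choose M hM using fun n => chart_shift g c (f.coeff n).2
  refine ⟨(Finset.range (f.natDegree + 1)).sup M, fun m hm d => ?_⟩
  set s : k := ((g c : k) / g d) ^ m with hs
  set p : Polynomial K := f.map (algebraMap (chart g c) K) with hp
  have hpm : p.Monic := hf.map _
  have hnat : p.natDegree = f.natDegree := hf.natDegree_map _
  refine integral_lift (p.scaleRoots (algebraMap k K s)) ?_ ?_ _ ?_
  · exact (Polynomial.monic_scaleRoots_iff _).2 hpm
  · intro n
    rw [Polynomial.coeff_scaleRoots, hp, Polynomial.coeff_map, ← hp, hnat]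
    have h0 : algebraMap (chart g c) K (f.coeff n) = algebraMap k K ((f.coeff n : chart g c) : k) :=
      rfl
    rw [h0, ← map_pow, ← map_mul]
    suffices h : ((f.coeff n : chart g c) : k) * s ^ (f.natDegree - n) ∈ chart g d from
      ⟨⟨_, h⟩, rfl⟩
    rcases lt_trichotomy n f.natDegree with hn | hn | hn
    · rw [hs, ← pow_mul]
      refine hM n _ ?_ d
      have h1 : M n ≤ (Finset.range (f.natDegree + 1)).sup M :=
        Finset.le_sup (Finset.mem_range.2 (by omega))
      have h2 : m * 1 ≤ m * (f.natDegree - n) := Nat.mul_le_mul_left _ (by omega)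
      omega
    · rw [hn, Nat.sub_self, pow_zero, mul_one]
      have h1 : f.coeff f.natDegree = 1 := hf
      rw [h1]
      exact (chart g d).one_mem
    · rw [Polynomial.coeff_eq_zero_of_natDegree_lt hn]
      have h1 : ((0 : chart g c) : k) = 0 := rfl
      rw [h1, zero_mul]
      exact (chart g d).zero_mem
  · have h1 : p.eval b = 0 := by
      rw [hp, Polynomial.eval_map]; exact hfb
    have h2 := Polynomial.scaleRoots_eval₂_eq_zero (f := RingHom.id K) (p := p) (r := b)
      (s := algebraMap k K s) (by rw [Polynomial.eval₂_id]; exact h1)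
    rw [Polynomial.eval₂_id, RingHom.id_apply, mul_comm] at h2
    exact h2

end

section

variable {k : Type} [Field k] [Algebra ℂ k] {K : Type} [Field K] [Algebra ℂ K] [Algebra k K]
  [IsScalarTower ℂ k K] [FiniteDimensional k K]

theorem chart_noeth (X : NormalModel k) (i : X.ι) : IsNoetherianRing (chart X.g i) := by
  have := X.fin
  have hfg : (chart X.g i).FG := by
    refine ⟨(Set.finite_range fun j => (X.g j : k) / X.g i).toFinset, ?_⟩
    rw [Set.Finite.coe_toFinset]; rfl
  have : Algebra.FiniteType ℂ (chart X.g i) := (Subalgebra.fg_iff_finiteType _).1 hfg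
  exact Algebra.FiniteType.isNoetherianRing ℂ _

theorem chart_frac (X : NormalModel k) (i : X.ι) : IsFractionRing (chart X.g i) k := by
  refine IsFractionRing.of_field (chart X.g i) k ?_
  intro z
  obtain ⟨a, ha, b, hb, hb0, hab⟩ := X.frac i z
  exact ⟨⟨a, ha⟩, ⟨b, hb⟩, hab⟩

theorem chart_closed (X : NormalModel k) (i : X.ι) : IsIntegrallyClosed (chart X.g i) := by
  have := chart_frac X i
  rw [isIntegrallyClosed_iff k]
  intro y hy
  exact ⟨⟨y, X.normal i y hy⟩, rfl⟩

omit [Algebra ℂ K] [IsScalarTower ℂ k K] in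
/-- Generators of the integral closure. -/
theorem exists_gens (X : NormalModel k) (i : X.ι) :
    ∃ F : Finset Kˣ, (∀ u ∈ F, IsIntegral (chart X.g i) (u : K)) ∧
      ∀ y : K, IsIntegral (chart X.g i) y →
        y ∈ Algebra.adjoin (chart X.g i) ((fun u : Kˣ => (u : K)) '' (F : Set Kˣ)) := by
  have hsep := isSeparable (k := k) (K := K)
  have := chart_noeth X i
  have := chart_frac X i
  have := chart_closed X i
  let B := integralClosure (chart X.g i) K
  have hfin : Module.Finite (chart X.g i) B := IsIntegralClosure.finite (chart X.g i) k K B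
  obtain ⟨S, hS⟩ := hfin.fg_top
  obtain ⟨F, hF⟩ : ∃ F : Finset Kˣ, ∀ u : Kˣ, u ∈ F ↔ ∃ b ∈ S, (b : K) = u := by
    have hfin : {u : Kˣ | ∃ b ∈ S, (b : K) = u}.Finite := by
      refine Set.Finite.of_finite_image (f := fun u : Kˣ => (u : K)) ?_ ?_
      · refine Set.Finite.subset ((S.finite_toSet).image fun b : B => (b : K)) ?_
        rintro _ ⟨u, ⟨b, hb, hbu⟩, rfl⟩
        exact ⟨b, hb, hbu⟩
      · intro u _ v _ huv
        exact Units.ext huv
    exact ⟨hfin.toFinset, fun u => by rw [Set.Finite.mem_toFinset]; rfl⟩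
  refine ⟨F, ?_, ?_⟩
  · intro u hu
    obtain ⟨b, -, hbu⟩ := (hF u).1 hu
    rw [← hbu]
    exact b.2
  · intro y hy
    have h1 : (⟨y, hy⟩ : B) ∈ Submodule.span (chart X.g i) (S : Set B) := by rw [hS]; trivial
    have h2 : ∀ z : B, z ∈ Submodule.span (chart X.g i) (S : Set B) →
        (z : K) ∈ Algebra.adjoin (chart X.g i) ((fun u : Kˣ => (u : K)) '' (F : Set Kˣ)) := by
      intro z hz
      induction hz using Submodule.span_induction with
      | mem x hx =>
        by_cases hx0 : (x : K) = 0
        · rw [hx0]; exact Subalgebra.zero_mem _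
        · refine Algebra.subset_adjoin ⟨Units.mk0 (x : K) hx0, ?_, rfl⟩
          rw [Finset.mem_coe, hF]
          exact ⟨x, hx, rfl⟩
      | zero => exact Subalgebra.zero_mem _
      | add x y _ _ h1 h2 => exact Subalgebra.add_mem _ h1 h2
      | smul a x _ h1 => exact Subalgebra.smul_mem _ h1 a
    exact h2 _ h1

/-- The normalisation of `X` in `K`. -/
theorem exists_cover (X : NormalModel k) : ∃ Y : NormalModel K, IsCover X Y := by
  have hXf := X.fin
  have hXn := X.ne
  choose F hFint hFgen using fun i => exists_gens (K := K) X i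
  -- the exponent
  have hMex : ∀ v : (Σ i, F i), ∃ M : ℕ, ∀ m ≥ M, ∀ d, IsIntegral (chart X.g d)
      (((v.2 : Kˣ) : K) * algebraMap k K (((X.g v.1 : k) / X.g d) ^ m)) := fun v =>
    integral_shift X.g v.1 (hFint v.1 v.2 v.2.2)
  choose M hM using hMex
  obtain ⟨N, hN1, hN⟩ : ∃ N : ℕ, 1 ≤ N ∧ ∀ v, M v ≤ N := by
    have : Finite (Σ i, F i) := inferInstance
    have := Fintype.ofFinite (Σ i, F i)
    refine ⟨Finset.univ.sup M + 1, by omega, fun v => ?_⟩
    have : M v ≤ Finset.univ.sup M := Finset.le_sup (Finset.mem_univ v)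
    omega
  -- the coordinates
  let y : ((Fin N → X.ι) ⊕ (Σ i, F i)) → Kˣ := Sum.elim
    (fun α => ∏ s, upU K (X.g (α s))) (fun v => (v.2 : Kˣ) * upU K (X.g v.1) ^ N)
  let cst : X.ι → ((Fin N → X.ι) ⊕ (Σ i, F i)) := fun i => Sum.inl fun _ => i
  have hcst : ∀ i, y (cst i) = upU K (X.g i) ^ N := by
    intro i
    change ∏ s : Fin N, upU K (X.g i) = _
    rw [Finset.prod_const, Finset.card_univ, Fintype.card_fin]
  have hupdiv : ∀ i j : X.ι, ((upU K (X.g i) : Kˣ) : K) / (upU K (X.g j) : Kˣ) =
      algebraMap k K ((X.g i : k) / X.g j) := by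
    intro i j
    rw [map_div₀]; rfl
  -- all quotients are integral
  have hint : ∀ c i, IsIntegral (chart X.g i) ((y c : K) / y (cst i)) := by
    intro c i
    rw [hcst]
    rcases c with α | v
    · have h1 : ((y (Sum.inl α) : Kˣ) : K) / ((upU K (X.g i) ^ N : Kˣ) : K) =
          algebraMap k K (∏ s, ((X.g (α s) : k) / X.g i)) := by
        change ((∏ s, upU K (X.g (α s)) : Kˣ) : K) / _ = _
        rw [Units.coe_prod, map_prod, Units.val_pow_eq_pow_val]
        have h2 : (((upU K (X.g i) : Kˣ) : K)) ^ N = ∏ _s : Fin N, ((upU K (X.g i) : Kˣ) : K) := by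
          rw [Finset.prod_const, Finset.card_univ, Fintype.card_fin]
        rw [h2, ← Finset.prod_div_distrib]
        exact Finset.prod_congr rfl fun s _ => hupdiv _ _
      rw [h1]
      have h3 : ∏ s, ((X.g (α s) : k) / X.g i) ∈ chart X.g i :=
        prod_mem fun s _ => ratio_mem_chart X.g i (α s)
      exact isIntegral_algebraMap (R := chart X.g i) (A := K) (x := ⟨_, h3⟩)
    · have h1 : ((y (Sum.inr v) : Kˣ) : K) / ((upU K (X.g i) ^ N : Kˣ) : K) =
          ((v.2 : Kˣ) : K) * algebraMap k K (((X.g v.1 : k) / X.g i) ^ N) := by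
        change (((v.2 : Kˣ) * upU K (X.g v.1) ^ N : Kˣ) : K) / _ = _
        rw [Units.val_mul, Units.val_pow_eq_pow_val, Units.val_pow_eq_pow_val, mul_div_assoc,
          ← div_pow, hupdiv, map_pow]
      rw [h1]
      exact hM v N (hN v) i
  -- the chart of `cst i` is the integral closure
  have hle : ∀ i, chart y (cst i) ≤ (integralClosure (chart X.g i) K).restrictScalars ℂ := by
    intro i
    unfold chart
    rw [Algebra.adjoin_le_iff]
    rintro _ ⟨c, rfl⟩
    exact hint c i
  have hA : ∀ i, ∀ a ∈ chart X.g i, algebraMap k K a ∈ chart y (cst i) := by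
    intro i a ha
    unfold chart at ha
    induction ha using Algebra.adjoin_induction with
    | mem x hx =>
      obtain ⟨l, rfl⟩ := hx
      have h1 : algebraMap k K ((X.g l : k) / X.g i) =
          (y (Sum.inl fun s : Fin N => if s = ⟨0, by omega⟩ then l else i) : K) / y (cst i) := by
        change _ = ((∏ s : Fin N, upU K (X.g (if s = ⟨0, by omega⟩ then l else i)) : Kˣ) : K) /
          ((∏ s : Fin N, upU K (X.g i) : Kˣ) : K)
        rw [Units.coe_prod, Units.coe_prod, ← Finset.prod_div_distrib,
          Finset.prod_eq_single (⟨0, by omega⟩ : Fin N)]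
        · rw [if_pos rfl, hupdiv]
        · intro s _ hs
          rw [if_neg hs, div_self (Units.ne_zero _)]
        · intro h; exact absurd (Finset.mem_univ _) h
      simp only
      rw [h1]
      exact ratio_mem_chart y (cst i) _
    | algebraMap r =>
      rw [← IsScalarTower.algebraMap_apply]
      exact (chart y (cst i)).algebraMap_mem r
    | add x z _ _ h1 h2 => rw [map_add]; exact (chart y (cst i)).add_mem h1 h2
    | mul x z _ _ h1 h2 => rw [map_mul]; exact (chart y (cst i)).mul_mem h1 h2
  have hge : ∀ i (x : K), IsIntegral (chart X.g i) x → x ∈ chart y (cst i) := by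
    intro i x hx
    have h0 : ∀ z ∈ Algebra.adjoin (chart X.g i) ((fun u : Kˣ => (u : K)) '' (F i : Set Kˣ)),
        z ∈ chart y (cst i) := by
      intro z hz
      induction hz using Algebra.adjoin_induction with
      | mem x hx =>
        obtain ⟨u, hu, rfl⟩ := hx
        have h2 : ((u : Kˣ) : K) = (y (Sum.inr ⟨i, ⟨u, hu⟩⟩) : K) / y (cst i) := by
          rw [hcst]
          change _ = ((u * upU K (X.g i) ^ N : Kˣ) : K) / _
          rw [Units.val_mul, mul_div_assoc, div_self (Units.ne_zero _), mul_one]
        simp only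
        rw [h2]
        exact ratio_mem_chart y (cst i) _
      | algebraMap r => exact hA i r r.2
      | add x z _ _ h1 h2 => exact (chart y (cst i)).add_mem h1 h2
      | mul x z _ _ h1 h2 => exact (chart y (cst i)).mul_mem h1 h2
    exact h0 x (hFgen i x hx)
  -- the charts `cst i` cover the others
  have hcov : ∀ c (P : Ideal (chart y c)), P.IsPrime → ∃ i,
      (⟨(y (cst i) : K) / y c, ratio_mem_chart y c (cst i)⟩ : chart y c) ∉ P := by
    intro c P hP
    obtain ⟨V, hV, hVP⟩ := Ideal.image_subset_nonunits_valuationSubring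
      (A := (chart y c).toSubring) P hP.ne_top
    let V' : ValuationSubring k := V.comap (algebraMap k K)
    obtain ⟨i, hi⟩ := X.exists_index V'
    refine ⟨i, fun hmem => ?_⟩
    have hconst : ∀ r : ℂ, algebraMap ℂ K r ∈ V := fun r => hV ((chart y c).algebraMap_mem r)
    have hAV : ∀ a ∈ chart X.g i, algebraMap k K a ∈ V := by
      intro a ha
      unfold chart at ha
      induction ha using Algebra.adjoin_induction with
      | mem x hx =>
        obtain ⟨j, rfl⟩ := hx
        exact hi j
      | algebraMap r =>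
        rw [← IsScalarTower.algebraMap_apply]; exact hconst r
      | add x z _ _ h1 h2 => rw [map_add]; exact V.add_mem _ _ h1 h2
      | mul x z _ _ h1 h2 => rw [map_mul]; exact V.mul_mem _ _ h1 h2
    have h1 : (y c : K) / y (cst i) ∈ V := by
      obtain ⟨f, hf, hf0⟩ := hint c i
      let φ : chart X.g i →+* V := (algebraMap (chart X.g i) K).codRestrict V.toSubring
        fun a => hAV a a.2
      have h2 : IsIntegral V ((y c : K) / y (cst i)) := by
        refine ⟨f.map φ, hf.map _, ?_⟩
        rw [Polynomial.eval₂_map]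
        exact hf0
      obtain ⟨z, hz⟩ := IsIntegrallyClosed.isIntegral_iff.1 h2
      rw [← hz]
      exact z.2
    have h2 : (y (cst i) : K) / y c ∈ V.nonunits := hVP ⟨_, hmem, rfl⟩
    have h3 : ((y (cst i) : K) / y c) * ((y c : K) / y (cst i)) = 1 := by
      have := (y c).ne_zero
      have := (y (cst i)).ne_zero
      field_simp
    rw [ValuationSubring.mem_nonunits_iff] at h2
    have h4 := (V.valuation_le_one_iff _).2 h1
    have h5 : V.valuation (((y (cst i) : K) / y c) * ((y c : K) / y (cst i))) < 1 := by
      rw [map_mul]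
      exact mul_lt_one_of_lt_of_le h2 h4
    rw [h3, map_one] at h5
    exact lt_irrefl _ h5
  have hcy0 : ∀ c i, (y (cst i) : K) / y c ≠ 0 := fun c i =>
    div_ne_zero (Units.ne_zero _) (Units.ne_zero _)
  have hinv : ∀ c i, (y c : K) / y (cst i) = ((y (cst i) : K) / y c)⁻¹ := fun c i => by
    rw [inv_div]
  let Y : NormalModel K :=
    { ι := (Fin N → X.ι) ⊕ (Σ i, F i)
      fin := inferInstance
      ne := ⟨cst (Classical.arbitrary _)⟩
      g := y
      frac := by
        intro c x
        have i : X.ι := Classical.arbitrary _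
        have := chart_frac X i
        have hF : IsFractionRing (integralClosure (chart X.g i) K) K :=
          integralClosure.isFractionRing_of_finite_extension k K
        obtain ⟨a, b, hb, hab⟩ := IsFractionRing.div_surjective
          (A := integralClosure (chart X.g i) K) x
        have hb0 : (b : K) ≠ 0 := fun h => nonZeroDivisors.ne_zero hb (Subtype.ext h)
        obtain ⟨M, hM⟩ := chart_shift y (cst i) (hge i a a.2)
        obtain ⟨M', hM'⟩ := chart_shift y (cst i) (hge i b b.2)
        refine ⟨_, hM (M + M') (by omega) c, _, hM' (M + M') (by omega) c,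
          mul_ne_zero hb0 (pow_ne_zero _ (hcy0 c i)), ?_⟩
        rw [mul_div_mul_right _ _ (pow_ne_zero _ (hcy0 c i))]
        exact hab.symm
      normal := by
        intro c x hx
        by_contra hcon
        let I : Ideal (chart y c) :=
          { carrier := {b | (b : K) * x ∈ chart y c}
            add_mem' := fun {a b} ha hb => by
              change ((a : K) + b) * x ∈ chart y c
              rw [add_mul]
              exact (chart y c).add_mem ha hb
            zero_mem' := by
              change (0 : K) * x ∈ chart y c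
              rw [zero_mul]; exact (chart y c).zero_mem
            smul_mem' := fun a b hb => by
              change ((a : K) * b) * x ∈ chart y c
              rw [mul_assoc]
              exact (chart y c).mul_mem a.2 hb }
        have hIne : I ≠ ⊤ := by
          rw [Ne, Ideal.eq_top_iff_one]
          intro h1
          have h2 : (1 : K) * x ∈ chart y c := h1
          rw [one_mul] at h2
          exact hcon h2
        obtain ⟨P, hP, hIP⟩ := Ideal.exists_le_maximal I hIne
        obtain ⟨i, hi⟩ := hcov c P hP.isPrime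
        obtain ⟨m, hm⟩ := integral_shift (K := K) y c hx
        have h1 := hm m le_rfl (cst i)
        have h2 : x * algebraMap K K (((y c : K) / y (cst i)) ^ m) ∈ chart y (cst i) := by
          refine hge i _ ?_
          obtain ⟨f, hf, hf0⟩ := h1
          let φ : chart y (cst i) →+* integralClosure (chart X.g i) K :=
            { toFun := fun z => ⟨z, hle i z.2⟩
              map_one' := rfl
              map_mul' := fun _ _ => rfl
              map_zero' := rfl
              map_add' := fun _ _ => rfl }
          have h2 : IsIntegral (integralClosure (chart X.g i) K)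
              (x * algebraMap K K (((y c : K) / y (cst i)) ^ m)) := by
            refine ⟨f.map φ, hf.map _, ?_⟩
            rw [Polynomial.eval₂_map]
            exact hf0
          exact isIntegral_trans _ h2
        obtain ⟨M', hM'⟩ := chart_shift y (cst i) h2
        have h3 := hM' (m + M') (by omega) c
        have h4 : x * algebraMap K K (((y c : K) / y (cst i)) ^ m) *
            ((y (cst i) : K) / y c) ^ (m + M') = ((y (cst i) : K) / y c) ^ M' * x := by
          rw [Algebra.algebraMap_self, RingHom.id_apply, hinv, pow_add, inv_pow]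
          have := hcy0 c i
          field_simp
        rw [h4] at h3
        apply hi
        have hPp := hP.isPrime
        refine hPp.mem_of_pow_mem M' (hIP ?_)
        exact h3 }
  refine ⟨Y, fun p => ?_⟩
  obtain ⟨i, hi⟩ := hcov p.i p.P p.prime
  set s : chart y p.i := ⟨(y (cst i) : K) / y p.i, ratio_mem_chart y p.i (cst i)⟩ with hs
  have hs0 : (s : K) ≠ 0 := hcy0 p.i i
  have hsM : ∀ M : ℕ, s ^ M ∉ p.P := fun M h => hi (p.prime.mem_of_pow_mem M h)
  refine ⟨i, fun a ha => ?_, ?_⟩
  · obtain ⟨M, hM⟩ := chart_shift y (cst i) (hA i a ha)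
    refine ⟨⟨_, hM M le_rfl p.i⟩, s ^ M, hsM M, ?_⟩
    change _ = (algebraMap k K a * ((y (cst i) : K) / y p.i) ^ M) / ((s : K) ^ M)
    rw [mul_div_assoc, div_self (pow_ne_zero _ hs0), mul_one]
  · rintro x ⟨u, w, hw, rfl⟩
    have hw0 : (w : K) ≠ 0 := by
      intro h0
      apply hw
      have : w = 0 := Subtype.ext h0
      rw [this]; exact p.P.zero_mem
    obtain ⟨M, hM⟩ := chart_shift y p.i u.2
    obtain ⟨M', hM'⟩ := chart_shift y p.i w.2
    have h1 := hle i (hM (M + M') (by omega) (cst i))
    have h2 := hle i (hM' (M + M') (by omega) (cst i))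
    have h3 : (y p.i : K) / y (cst i) = (s : K)⁻¹ := hinv p.i i
    rw [h3] at h1 h2
    refine ⟨_, _, h1, h2, ?_, mul_ne_zero hw0 (pow_ne_zero _ (inv_ne_zero hs0)), ?_⟩
    · refine ⟨s ^ (M + M'), w, hw, ?_⟩
      change _ = ((s : K) ^ (M + M')) / w
      rw [mul_inv, inv_pow, inv_inv, div_eq_mul_inv, mul_comm]
    · rw [mul_div_mul_right _ _ (pow_ne_zero _ (inv_ne_zero hs0))]

end

end Pool.Agent.LibCov80
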