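import Pool.Agent.LibCov80.Prime
import Pool.Agent.LibGMC.Step

/-! Pull-back of divisors to a cover. -/

open scoped Classical

namespace Pool.Agent.LibCov80

open Pool.Agent.LibGMM Pool.Agent.LibGMC

variable {k : Type} [Field k] [Algebra ℂ k] {K : Type} [Field K] [Algebra ℂ K] [Algebra k K]
  [IsScalarTower ℂ k K]

omit [IsScalarTower ℂ k K] in
theorem Over.unique' {Q : DVal K} {q q' : DVal k} {e e' : ℕ} (h : Over Q q e) (h' : Over Q q' e') :
    e = e' := by
  have h1 := h.unique h'
  subst h1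
  obtain ⟨t, ht⟩ := q.exists_ord_one
  have h2 := h.ord t
  rw [h'.ord t, ht, mul_one, mul_one] at h2
  exact_mod_cast h2.symm

/-- `D'` is the pull-back of `D`. -/
def Pulls (D' : DVal K → ℝ) (D : DVal k → ℝ) : Prop :=
  ∀ Q q e, Over Q q e → D' Q = e * D q

omit [IsScalarTower ℂ k K] in
theorem pulls_sys (G : Finset kˣ) : Pulls (K := K) (fun Q => sys Q (up K G)) fun q => sys q G :=
  fun _ _ _ h => h.sys_up G

omit [IsScalarTower ℂ k K] in
theorem Pulls.add {D' E' : DVal K → ℝ} {D E : DVal k → ℝ} (h : Pulls D' D) (h' : Pulls E' E) :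
    Pulls (fun Q => D' Q + E' Q) fun q => D q + E q := fun Q q e hQ => by
  simp only
  rw [h Q q e hQ, h' Q q e hQ]; ring

omit [IsScalarTower ℂ k K] in
theorem Pulls.smul {D' : DVal K → ℝ} {D : DVal k → ℝ} (h : Pulls D' D) (c : ℝ) :
    Pulls (fun Q => c * D' Q) fun q => c * D q := fun Q q e hQ => by
  simp only
  rw [h Q q e hQ]; ring

omit [IsScalarTower ℂ k K] in
theorem Pulls.sum {α : Type} (s : Finset α) {D' : α → DVal K → ℝ} {D : α → DVal k → ℝ}
    (h : ∀ a ∈ s, Pulls (D' a) (D a)) :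
    Pulls (fun Q => ∑ a ∈ s, D' a Q) fun q => ∑ a ∈ s, D a q := fun Q q e hQ => by
  simp only
  rw [Finset.mul_sum]
  exact Finset.sum_congr rfl fun a ha => h a ha Q q e hQ

/-- The pull-back of `D`. -/
noncomputable def pullD [Algebra.IsAlgebraic k K] (D : DVal k → ℝ) (Q : DVal K) : ℝ :=
  ((exists_over (k := k) Q).choose_spec.choose : ℝ) * D (exists_over (k := k) Q).choose

theorem pulls_pullD [Algebra.IsAlgebraic k K] (D : DVal k → ℝ) : Pulls (K := K) (pullD D) D := by
  intro Q q e h
  have h1 := (exists_over (k := k) Q).choose_spec.choose_spec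
  unfold pullD
  rw [h.unique h1, h.unique' h1]

variable [Algebra.IsAlgebraic k K]

theorem rlinEq_up {X : NormalModel k} {Y : NormalModel K} (h : IsCover X Y)
    {D' E' : DVal K → ℝ} {D E : DVal k → ℝ} (hD : Pulls D' D) (hE : Pulls E' E)
    (hDE : X.RLinEq D E) : Y.RLinEq D' E' := by
  obtain ⟨f, hf⟩ := hDE
  refine ⟨upF f, fun Q hQ => ?_⟩
  obtain ⟨q, e, hq⟩ := exists_over (k := k) Q
  rw [hD Q q e hq, hE Q q e hq, hq.ordR_up, hf q (prime_down h hq hQ)]
  ring

theorem rEffective_up {X : NormalModel k} {Y : NormalModel K} (h : IsCover X Y)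
    {D' : DVal K → ℝ} {D : DVal k → ℝ} (hD : Pulls D' D) (hDE : X.REffective D) :
    Y.REffective D' := by
  obtain ⟨f, hf⟩ := hDE
  refine ⟨upF f, fun Q hQ => ?_⟩
  obtain ⟨q, e, hq⟩ := exists_over (k := k) Q
  rw [hD Q q e hq, hq.ordR_up, ← mul_add]
  exact mul_nonneg (by positivity) (hf q (prime_down h hq hQ))

theorem isPrimeDiv_iff {X : NormalModel k} {Y : NormalModel K} (h : IsCover X Y) {Q : DVal K}
    {q : DVal k} {e : ℕ} (hQ : Over Q q e) : Y.IsPrimeDiv Q ↔ X.IsPrimeDiv q :=
  ⟨prime_down h hQ, prime_up h hQ⟩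

variable {J : Type} [Fintype J] [DecidableEq J]

theorem crosses_up {X X' : NormalModel k} {Y Y' : NormalModel K} (h : IsCover X Y)
    (h' : IsCover X' Y') {G G' : J → Finset kˣ} {i : J} {c : J → ℤ}
    (hc : Crosses X X' G G' i c) : Crosses Y Y' (fun j => up K (G j)) (fun j => up K (G' j)) i c where
  prime Q := by
    obtain ⟨q, e, hq⟩ := exists_over (k := k) Q
    rw [isPrimeDiv_iff h hq, isPrimeDiv_iff h' hq, hc.prime]
  same j hj := rlinEq_up h (pulls_sys _) (pulls_sys _) (hc.same j hj)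
  cls := rlinEq_up h ((pulls_sys _).add (pulls_sys _))
    (Pulls.sum _ fun j _ => (pulls_sys (G j)).smul _) hc.cls

omit [Algebra ℂ k] [Algebra ℂ K] [IsScalarTower ℂ k K] [Algebra.IsAlgebraic k K] in
theorem up_one : up K ({1} : Finset kˣ) = {1} := by
  unfold up
  rw [Finset.image_singleton, map_one]

theorem shrinks_up {X X' : NormalModel k} {Y Y' : NormalModel K} (h : IsCover X Y)
    (h' : IsCover X' Y') {G G' : J → Finset kˣ} {l : J} {e : J → ℝ}
    (hc : Shrinks X X' G G' l e) : Shrinks Y Y' (fun j => up K (G j)) (fun j => up K (G' j)) l e where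
  prime Q hQ := by
    obtain ⟨q, e, hq⟩ := exists_over (k := k) Q
    rw [isPrimeDiv_iff h hq]
    rw [isPrimeDiv_iff h' hq] at hQ
    exact hc.prime q hQ
  same := by
    funext j
    rw [hc.same]
    by_cases hj : j = l
    · subst hj
      rw [Function.update_self, Function.update_self, up_one]
    · rw [Function.update_of_ne hj, Function.update_of_ne hj]
  cls := by
    obtain ⟨E, h1, h2, h3⟩ := hc.cls
    refine ⟨pullD E, rlinEq_up h ((pulls_pullD E).add (pulls_sys _))
      (Pulls.sum _ fun j _ => (pulls_sys (G j)).smul _) h1, fun Q hQ => ?_, fun Q hQ hQ' => ?_⟩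
    · obtain ⟨q, e, hq⟩ := exists_over (k := k) Q
      rw [pulls_pullD E Q q e hq, h2 q ((isPrimeDiv_iff h' hq).1 hQ), mul_zero]
    · obtain ⟨q, e, hq⟩ := exists_over (k := k) Q
      rw [isPrimeDiv_iff h hq] at hQ
      rw [isPrimeDiv_iff h' hq] at hQ'
      rw [pulls_pullD E Q q e hq]
      have := hq.pos
      have := h3 q hQ hQ'
      positivity

/-! Moving linear systems. -/

omit [Algebra.IsAlgebraic k K] [Fintype J] [DecidableEq J] in
theorem moves_up {G : J → Finset kˣ} {S : Set J} {l : J} (h : Moves G S l) :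
    Moves (fun j => up K (G j)) S l := by
  obtain ⟨g, hg, g', hg', htr⟩ := h
  refine ⟨upU K g, Finset.mem_image_of_mem _ hg, upU K g', Finset.mem_image_of_mem _ hg', ?_⟩
  intro halg
  apply htr
  set φ : k →ₐ[ℂ] K := IsScalarTower.toAlgHom ℂ k K with hφ
  have hφa : ∀ x : k, φ x = algebraMap k K x := fun x => rfl
  have hle : ratioField (fun j => up K (G j)) S ≤ (ratioField G S).map φ := by
    unfold ratioField
    rw [IntermediateField.adjoin_le_iff]
    rintro _ ⟨j, hj, u, hu, v, hv, rfl⟩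
    obtain ⟨u', hu', rfl⟩ := Finset.mem_image.1 hu
    obtain ⟨v', hv', rfl⟩ := Finset.mem_image.1 hv
    refine ⟨(u' : k) / v', IntermediateField.subset_adjoin _ _ ⟨j, hj, u', hu', v', hv', rfl⟩, ?_⟩
    change φ ((u' : k) / v') = _
    rw [map_div₀]
    rfl
  obtain ⟨f, hf0, hf⟩ := halg
  -- lift the polynomial
  have hlift : ∀ c : ratioField (fun j => up K (G j)) S, ∃ a : ratioField G S,
      algebraMap k K (a : k) = (c : K) := by
    intro c
    obtain ⟨a, ha, hac⟩ := hle c.2
    exact ⟨⟨a, ha⟩, hac⟩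
  choose L hL using hlift
  have hL0 : L 0 = 0 := by
    have h1 := hL 0
    have h2 : ((0 : ratioField (fun j => up K (G j)) S) : K) = 0 := rfl
    rw [h2, map_eq_zero] at h1
    exact Subtype.ext h1
  refine ⟨∑ n ∈ f.support, Polynomial.monomial n (L (f.coeff n)), ?_, ?_⟩
  · intro h0
    apply hf0
    ext n
    have h1 : (∑ m ∈ f.support, Polynomial.monomial m (L (f.coeff m))).coeff n = L (f.coeff n) := by
      rw [Polynomial.finsetSum_coeff]
      simp only [Polynomial.coeff_monomial]
      rw [Finset.sum_ite_eq' f.support n]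
      split_ifs with hn
      · rfl
      · rw [Polynomial.notMem_support_iff.1 hn, hL0]
    rw [h0, Polynomial.coeff_zero] at h1
    have h2 := hL (f.coeff n)
    rw [← h1] at h2
    rw [← h2]
    simp
  · apply (algebraMap k K).injective
    rw [map_zero, ← hf, map_sum, map_sum, Polynomial.aeval_eq_sum_range' (n := f.natDegree + 1)
      (by omega), Finset.sum_subset (Polynomial.supp_subset_range_natDegree_succ)]
    · refine Finset.sum_congr rfl fun n _ => ?_
      rw [Polynomial.aeval_monomial, map_mul, map_pow, Algebra.smul_def]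
      congr 1
      · exact hL (f.coeff n)
      · rw [map_div₀]; rfl
    · intro n _ hn
      rw [Polynomial.notMem_support_iff.1 hn, hL0]
      simp

end Pool.Agent.LibCov80
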