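import Pool.Agent.LibCov80.Val
import Pool.Agent.LibGMM.G5
import Pool.Agent.LibGMM.G10

/-! The local rings of a cover. -/

open scoped Classical

namespace Pool.Agent.LibCov80

open Pool.Agent.LibGMM Pool.Agent.LibGMC

section

variable {K : Type} [Field K] [Algebra ℂ K]

/-- The maximal ideal of the local ring at `p`. -/
def maxI (X : NormalModel K) (p : X.Pt) : Set K :=
  {x | ∃ a b : chart X.g p.i, a ∈ p.P ∧ b ∉ p.P ∧ x = (a : K) / b}

theorem coe_ne (X : NormalModel K) (p : X.Pt) {b : chart X.g p.i} (hb : b ∉ p.P) : (b : K) ≠ 0 := by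
  intro hc
  apply hb
  have : b = 0 := Subtype.ext hc
  rw [this]; exact p.P.zero_mem

theorem maxI_le (X : NormalModel K) (p : X.Pt) {x : K} (hx : x ∈ maxI X p) : x ∈ X.loc p := by
  obtain ⟨a, b, -, hb, rfl⟩ := hx
  exact ⟨a, b, hb, rfl⟩

theorem inv_mem_loc (X : NormalModel K) (p : X.Pt) {x : K} (hx : x ∈ X.loc p)
    (hx' : x ∉ maxI X p) : x⁻¹ ∈ X.loc p := by
  obtain ⟨a, b, hb, rfl⟩ := hx
  have ha : a ∉ p.P := fun ha => hx' ⟨a, b, ha, hb, rfl⟩
  exact ⟨b, a, ha, by rw [inv_div]⟩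

theorem ne_zero_of_notMem_maxI (X : NormalModel K) (p : X.Pt) {x : K} (hx : x ∈ X.loc p)
    (hx' : x ∉ maxI X p) : x ≠ 0 := by
  rintro rfl
  obtain ⟨a, b, hb, h⟩ := hx
  exact hx' ⟨0, b, p.P.zero_mem, hb, by simp⟩

theorem inv_notMem_loc (X : NormalModel K) (p : X.Pt) {x : K} (hx : x ∈ maxI X p) (hx0 : x ≠ 0) :
    x⁻¹ ∉ X.loc p := by
  obtain ⟨a, b, ha, hb, rfl⟩ := hx
  rintro ⟨c, d, hd, h⟩
  have := p.prime
  have hb0 := coe_ne X p hb
  have hd0 := coe_ne X p hd
  have ha0 : (a : K) ≠ 0 := by rintro h0; simp [h0] at hx0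
  have h1 : ((b * d : chart X.g p.i) : K) = ((a * c : chart X.g p.i) : K) := by
    push_cast
    rw [inv_div, div_eq_div_iff ha0 hd0] at h
    linear_combination h
  have h2 : b * d = a * c := Subtype.ext h1
  have h3 : b * d ∈ p.P := by rw [h2]; exact p.P.mul_mem_right _ ha
  rcases p.prime.mem_or_mem h3 with h4 | h4
  · exact hb h4
  · exact hd h4

theorem mem_maxI_iff (X : NormalModel K) (p : X.Pt) (a : chart X.g p.i) :
    (a : K) ∈ maxI X p ↔ a ∈ p.P := by
  constructor
  · rintro ⟨c, d, hc, hd, h⟩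
    have hd0 := coe_ne X p hd
    have h1 : a * d = c := Subtype.ext (by push_cast; rw [h]; field_simp)
    rcases p.prime.mem_or_mem (show a * d ∈ p.P by rw [h1]; exact hc) with h2 | h2
    · exact h2
    · exact absurd h2 hd
  · intro ha
    exact ⟨a, 1, ha, fun h => p.prime.ne_top ((Ideal.eq_top_iff_one _).2 h), by simp⟩

theorem maxI_add (X : NormalModel K) (p : X.Pt) {x y : K} (hx : x ∈ maxI X p)
    (hy : y ∈ maxI X p) : x + y ∈ maxI X p := by
  obtain ⟨a, b, ha, hb, rfl⟩ := hx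
  obtain ⟨c, d, hc, hd, rfl⟩ := hy
  refine ⟨a * d + b * c, b * d, p.P.add_mem (p.P.mul_mem_right _ ha) (p.P.mul_mem_left _ hc), ?_, ?_⟩
  · intro h
    rcases p.prime.mem_or_mem h with h | h
    · exact hb h
    · exact hd h
  · push_cast
    rw [div_add_div _ _ (coe_ne X p hb) (coe_ne X p hd)]

theorem maxI_mul (X : NormalModel K) (p : X.Pt) {x y : K} (hx : x ∈ X.loc p)
    (hy : y ∈ maxI X p) : x * y ∈ maxI X p := by
  obtain ⟨a, b, hb, rfl⟩ := hx
  obtain ⟨c, d, hc, hd, rfl⟩ := hy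
  refine ⟨a * c, b * d, p.P.mul_mem_left _ hc, ?_, ?_⟩
  · intro h
    rcases p.prime.mem_or_mem h with h | h
    · exact hb h
    · exact hd h
  · push_cast
    rw [div_mul_div_comm]

theorem maxI_prime (X : NormalModel K) (p : X.Pt) {x y : K} (hx : x ∈ X.loc p)
    (hy : y ∈ X.loc p) (h : x * y ∈ maxI X p) : x ∈ maxI X p ∨ y ∈ maxI X p := by
  by_contra hcon
  push Not at hcon
  have hx' := inv_mem_loc X p hx hcon.1
  have h1 := maxI_mul X p hx' h
  rw [← mul_assoc, inv_mul_cancel₀ (ne_zero_of_notMem_maxI X p hx hcon.1), one_mul] at h1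
  exact hcon.2 h1

/-- The centre in terms of the maximal ideal. -/
theorem centre_maxI (X : NormalModel K) (O : DVal K) (p : X.Pt) (h : X.IsCentre O p) (x : K)
    (hx : x ∈ X.loc p) : x ∈ maxI X p ↔ (x = 0 ∨ 0 < O.ord x) := by
  constructor
  · intro hm
    by_cases hx0 : x = 0
    · exact Or.inl hx0
    right
    obtain ⟨a, b, ha, hb, rfl⟩ := hm
    have ha0 : (a : K) ≠ 0 := by rintro h0; simp [h0] at hx0
    have h1 := ((h a).2.1 ha).resolve_left (fun h2 => ha0 (by rw [h2]; rfl))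
    have h2 : O.ord (b : K) = 0 := by
      have h3 := (h b).1
      by_contra hne
      exact hb ((h b).2.2 (Or.inr (lt_of_le_of_ne h3 (Ne.symm hne))))
    rw [O.ord_div ha0 (coe_ne X p hb), h2]
    omega
  · rintro (rfl | h1)
    · obtain ⟨a, b, hb, -⟩ := hx
      exact ⟨0, b, p.P.zero_mem, hb, by simp⟩
    · by_contra hcon
      have h2 := X.loc_le_of_isCentre O p h _ (inv_mem_loc X p hx hcon)
      rw [O.ord_inv] at h2
      omega

theorem inv_mem_of_ord_eq_zero (X : NormalModel K) (O : DVal K) (p : X.Pt) (h : X.IsCentre O p)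
    (x : K) (hx : x ∈ X.loc p) (hx0 : x ≠ 0) (hord : O.ord x = 0) : x⁻¹ ∈ X.loc p := by
  refine inv_mem_loc X p hx fun h1 => ?_
  rcases (centre_maxI X O p h x hx).1 h1 with h2 | h2
  · exact hx0 h2
  · omega

theorem pow_mem_loc (X : NormalModel K) (p : X.Pt) {x : K} (hx : x ∈ X.loc p) (n : ℕ) :
    x ^ n ∈ X.loc p := by
  induction n with
  | zero => simpa using X.const_mem_loc p 1
  | succ n ih => rw [pow_succ]; exact X.mul_mem_loc p ih hx

/-- The local ring as a subalgebra. -/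
def locAlg (X : NormalModel K) (p : X.Pt) : Subalgebra ℂ K where
  carrier := X.loc p
  mul_mem' := X.mul_mem_loc p
  add_mem' := X.add_mem_loc p
  algebraMap_mem' := X.const_mem_loc p

theorem mem_locAlg (X : NormalModel K) (p : X.Pt) (x : K) : x ∈ locAlg X p ↔ x ∈ X.loc p := Iff.rfl

/-- Two centres of the same valuation have the same local ring. -/
theorem loc_le_of_centres (X : NormalModel K) (O : DVal K) (p p' : X.Pt) (h : X.IsCentre O p)
    (h' : X.IsCentre O p') (x : K) (hx : x ∈ X.loc p) : x ∈ X.loc p' := by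
  have h1 : ∀ j, (X.g j : K) / X.g p'.i ∈ X.loc p' := fun j => X.ratio_mem_loc p' j
  have h2 : 0 ≤ O.ord ((X.g p'.i : K) / X.g p.i) :=
    X.loc_le_of_isCentre O p h _ (X.ratio_mem_loc p _)
  have h3 : 0 ≤ O.ord ((X.g p.i : K) / X.g p'.i) :=
    X.loc_le_of_isCentre O p' h' _ (X.ratio_mem_loc p' _)
  rw [O.ord_div (Units.ne_zero _) (Units.ne_zero _)] at h2
  have h3' := h3
  rw [O.ord_div (Units.ne_zero _) (Units.ne_zero _)] at h3'
  have h4 : O.ord ((X.g p.i : K) / X.g p'.i) = 0 := by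
    rw [O.ord_div (Units.ne_zero _) (Units.ne_zero _)]; omega
  have h5 := inv_mem_of_ord_eq_zero X O p' h' _ (h1 p.i)
    (div_ne_zero (Units.ne_zero _) (Units.ne_zero _)) h4
  have h6 : chart X.g p.i ≤ locAlg X p' := by
    unfold chart
    rw [Algebra.adjoin_le_iff]
    rintro _ ⟨j, rfl⟩
    have h7 := X.mul_mem_loc p' (h1 j) h5
    have h8 : (X.g j : K) / X.g p'.i * ((X.g p.i : K) / X.g p'.i)⁻¹ = (X.g j : K) / X.g p.i := by
      have := (X.g p'.i).ne_zero
      have := (X.g p.i).ne_zero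
      field_simp
    rw [h8] at h7
    exact h7
  obtain ⟨a, b, hb, rfl⟩ := hx
  have hb0 := coe_ne X p hb
  have h9 : O.ord (b : K) = 0 := by
    have h10 := (h b).1
    by_contra hne
    exact hb ((h b).2.2 (Or.inr (lt_of_le_of_ne h10 (Ne.symm hne))))
  have h11 := inv_mem_of_ord_eq_zero X O p' h' _ (h6 b.2) hb0 h9
  rw [div_eq_mul_inv]
  exact X.mul_mem_loc p' (h6 a.2) h11

end

section

variable {k : Type} [Field k] [Algebra ℂ k] {K : Type} [Field K] [Algebra ℂ K] [Algebra k K]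
  [IsScalarTower ℂ k K]

/-- The image of a point of the cover. -/
theorem IsCover.image {X : NormalModel k} {Y : NormalModel K} (h : IsCover X Y) (p : Y.Pt) :
    ∃ p' : X.Pt, (∀ x ∈ X.loc p', algebraMap k K x ∈ Y.loc p) ∧
      (∀ a : chart X.g p'.i, a ∈ p'.P ↔ algebraMap k K (a : k) ∈ maxI Y p) ∧
      ∀ y ∈ Y.loc p, ∃ a b : K, IsIntegral (chart X.g p'.i) a ∧ IsIntegral (chart X.g p'.i) b ∧
        b⁻¹ ∈ Y.loc p ∧ b ≠ 0 ∧ y = a / b := by
  obtain ⟨i, hi, hloc⟩ := h p
  let P : Ideal (chart X.g i) :=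
    { carrier := {a | algebraMap k K (a : k) ∈ maxI Y p}
      add_mem' := fun {a b} ha hb => by
        have h1 : algebraMap k K ((a + b : chart X.g i) : k) =
          algebraMap k K (a : k) + algebraMap k K (b : k) := map_add _ _ _
        change algebraMap k K ((a + b : chart X.g i) : k) ∈ maxI Y p
        rw [h1]
        exact maxI_add Y p ha hb
      zero_mem' := by
        have h1 : algebraMap k K ((0 : chart X.g i) : k) = 0 := map_zero _
        change algebraMap k K ((0 : chart X.g i) : k) ∈ maxI Y p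
        rw [h1]
        exact ⟨0, 1, p.P.zero_mem, fun h => p.prime.ne_top ((Ideal.eq_top_iff_one _).2 h), by simp⟩
      smul_mem' := fun a b hb => by
        have h1 : algebraMap k K ((a * b : chart X.g i) : k) =
          algebraMap k K (a : k) * algebraMap k K (b : k) := map_mul _ _ _
        change algebraMap k K ((a * b : chart X.g i) : k) ∈ maxI Y p
        rw [h1]
        exact maxI_mul Y p (hi a a.2) hb }
  have hP : ∀ a : chart X.g i, a ∈ P ↔ algebraMap k K (a : k) ∈ maxI Y p := fun a => Iff.rfl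
  have hprime : P.IsPrime := by
    refine ⟨?_, ?_⟩
    · rw [Ne, Ideal.eq_top_iff_one, hP]
      intro h1
      have h3 : algebraMap k K ((1 : chart X.g i) : k) = 1 := map_one _
      rw [h3] at h1
      have h2 := inv_notMem_loc Y p h1 one_ne_zero
      apply h2
      have := Y.const_mem_loc p 1
      simpa using this
    · intro a b hab
      have h1 : algebraMap k K ((a * b : chart X.g i) : k) =
        algebraMap k K (a : k) * algebraMap k K (b : k) := map_mul _ _ _
      rw [hP, h1] at hab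
      rw [hP, hP]
      exact maxI_prime Y p (hi a a.2) (hi b b.2) hab
  refine ⟨⟨i, P, hprime⟩, ?_, hP, hloc⟩
  rintro x ⟨a, b, hb, rfl⟩
  rw [map_div₀, div_eq_mul_inv]
  exact Y.mul_mem_loc p (hi a a.2) (inv_mem_loc Y p (hi b b.2) fun h1 => hb ((hP b).2 h1))

theorem IsCover.bpf {X : NormalModel k} {Y : NormalModel K} (h : IsCover X Y) {G : Finset kˣ}
    (hG : X.BPF G) : Y.BPF (up K G) := by
  intro p
  obtain ⟨p', hp', -, -⟩ := h.image p
  obtain ⟨u, hu, hu'⟩ := hG p'
  refine ⟨upU K u, Finset.mem_image_of_mem _ hu, ?_⟩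
  intro v hv
  obtain ⟨w, hw, rfl⟩ := Finset.mem_image.1 hv
  have h1 := hp' _ (hu' w hw)
  rw [map_div₀] at h1
  exact h1

/-- The image of the centre of `Q` is the centre of the valuation below `Q`. -/
theorem Over.centre {X : NormalModel k} {Y : NormalModel K} {Q : DVal K} {q : DVal k} {e : ℕ}
    (hQ : Over Q q e) {p : Y.Pt} {p' : X.Pt} (hc : Y.IsCentre Q p)
    (h1 : ∀ x ∈ X.loc p', algebraMap k K x ∈ Y.loc p)
    (h2 : ∀ a : chart X.g p'.i, a ∈ p'.P ↔ algebraMap k K (a : k) ∈ maxI Y p) :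
    X.IsCentre q p' := by
  intro a
  have ha : (a : k) ∈ X.loc p' := ⟨a, 1, fun h => p'.prime.ne_top ((Ideal.eq_top_iff_one _).2 h),
    by simp⟩
  have h3 := h1 _ ha
  refine ⟨(hQ.nonneg_iff _).1 (Y.loc_le_of_isCentre Q p hc _ h3), ?_⟩
  rw [h2, centre_maxI Y Q p hc _ h3, hQ.ord, map_eq_zero]
  have he := hQ.pos
  constructor
  · rintro (h | h)
    · exact Or.inl (Subtype.ext h)
    · right
      by_contra hcon
      push Not at hcon
      have : (e : ℤ) * q.ord a ≤ 0 := mul_nonpos_of_nonneg_of_nonpos (by omega) hcon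
      omega
  · rintro (h | h)
    · left; rw [h]; rfl
    · right
      have : (0 : ℤ) < e := by omega
      positivity

end

end Pool.Agent.LibCov80
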