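import Pool.Agent.LibCov80.Big
import Pool.Agent.LibGMM.CanOrd

/-! The ramification divisor of a cover is effective. -/

open scoped Classical KaehlerDifferential

namespace Pool.Agent.LibCov80

open Pool.Agent.LibGMM Pool.Agent.LibGMC

section

variable {K : Type} [Field K] [Algebra ℂ K]

theorem coe_smul_mem {V : Type} [AddCommGroup V] [Module K V] (S : Subalgebra ℂ K) (T : Set V)
    (c : K) (hc : c ∈ S) (z : V) (hz : z ∈ Submodule.span S T) : c • z ∈ Submodule.span S T :=
  Submodule.smul_mem _ (⟨c, hc⟩ : S) hz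

/-- Differentials of the elements of a localisation of a chart. -/
theorem D_mem (X : NormalModel K) (i : X.ι) (S : Subalgebra ℂ K) (hS : chart X.g i ≤ S)
    (hfrac : ∀ x ∈ S, ∃ a ∈ chart X.g i, ∃ b ∈ chart X.g i, b ≠ 0 ∧ b⁻¹ ∈ S ∧ x = a / b)
    (x : K) (hx : x ∈ S) :
    KaehlerDifferential.D ℂ K x ∈ Submodule.span S
      (Set.range fun j => KaehlerDifferential.D ℂ K ((X.g j : K) / X.g i)) := by
  have hchart : ∀ a ∈ chart X.g i, KaehlerDifferential.D ℂ K a ∈ Submodule.span S
      (Set.range fun j => KaehlerDifferential.D ℂ K ((X.g j : K) / X.g i)) := by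
    intro a ha
    unfold chart at ha
    induction ha using Algebra.adjoin_induction with
    | mem x hx =>
      obtain ⟨j, rfl⟩ := hx
      exact Submodule.subset_span ⟨j, rfl⟩
    | algebraMap r => rw [Derivation.map_algebraMap]; exact Submodule.zero_mem _
    | add x y _ _ h1 h2 => rw [map_add]; exact Submodule.add_mem _ h1 h2
    | mul x y hx hy h1 h2 =>
      rw [Derivation.leibniz]
      exact Submodule.add_mem _ (coe_smul_mem S _ x (hS hx) _ h2) (coe_smul_mem S _ y (hS hy) _ h1)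
  obtain ⟨a, ha, b, hb, hb0, hbS, rfl⟩ := hfrac x hx
  rw [div_eq_mul_inv, Derivation.leibniz, Derivation.leibniz_inv]
  refine Submodule.add_mem _ ?_ ?_
  · refine coe_smul_mem S _ a (hS ha) _ ?_
    exact coe_smul_mem S _ _ (S.neg_mem (S.pow_mem hbS 2)) _ (hchart b hb)
  · exact coe_smul_mem S _ _ hbS _ (hchart a ha)

theorem finite_kaehler (X : NormalModel K) : Module.Finite K (Ω[K⁄ℂ]) := by
  have := X.fin
  have i : X.ι := X.ne.some
  refine ⟨⟨(Set.finite_range fun j => KaehlerDifferential.D ℂ K ((X.g j : K) / X.g i)).toFinset,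
    ?_⟩⟩
  rw [Set.Finite.coe_toFinset, eq_top_iff, ← KaehlerDifferential.span_range_derivation,
    Submodule.span_le]
  rintro _ ⟨x, rfl⟩
  have h1 := D_mem X i ⊤ le_top (fun x _ => by
    obtain ⟨a, ha, b, hb, hb0, hab⟩ := X.frac i x
    exact ⟨a, ha, b, hb, hb0, Algebra.mem_top, hab⟩) x Algebra.mem_top
  refine Submodule.span_induction (p := fun z _ => z ∈ Submodule.span K
    (Set.range fun j => KaehlerDifferential.D ℂ K ((X.g j : K) / X.g i))) ?_ ?_ ?_ ?_ h1
  · exact fun z hz => Submodule.subset_span hz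
  · exact Submodule.zero_mem _
  · exact fun y z _ _ h1 h2 => Submodule.add_mem _ h1 h2
  · exact fun a z _ h1 => Submodule.smul_mem _ (a : K) h1

theorem exists_frac_ord (X : NormalModel K) (O : DVal K) (hO : X.IsPrimeDiv O) :
    ∃ i, chart X.g i ≤ O.ring ∧ ∀ x ∈ O.ring, ∃ a ∈ chart X.g i, ∃ b ∈ chart X.g i,
      b ≠ 0 ∧ b⁻¹ ∈ O.ring ∧ x = a / b := by
  obtain ⟨p, hp, hring⟩ := hO
  refine ⟨p.i, fun a ha => (hp ⟨a, ha⟩).1, fun x hx => ?_⟩
  obtain ⟨a, b, hb, rfl⟩ := hring x hx
  refine ⟨a, a.2, b, b.2, coe_ne X p hb, ?_, rfl⟩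
  have h1 : ¬ (b = 0 ∨ 0 < O.ord b) := fun h => hb ((hp b).2.2 h)
  push Not at h1
  change 0 ≤ O.ord (b : K)⁻¹
  rw [O.ord_inv]
  have := h1.2
  omega

/-- The possible orders in the definition of `canOrd`. -/
def canSet (O : DVal K) (ω : TopForm K) : Set ℤ :=
  {k | ∃ (g : K) (x : Fin (dimK K) → K), g ≠ 0 ∧ O.ord g = k ∧ (∀ i, 0 ≤ O.ord (x i)) ∧
    ∀ D : Fin (dimK K) → Derivation ℂ K K, ω D = g * Matrix.det fun i j => D i (x j)}

theorem canOrd_eq_sSup (O : DVal K) (ω : TopForm K) : canOrd O ω = sSup (canSet O ω) := rfl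

theorem ord_sum_ge' (O : DVal K) {α : Type} (s : Finset α) (f : α → K) (n : ℤ)
    (h : ∀ i ∈ s, f i = 0 ∨ n ≤ O.ord (f i)) : ∑ i ∈ s, f i = 0 ∨ n ≤ O.ord (∑ i ∈ s, f i) := by
  induction s using Finset.induction_on with
  | empty => left; simp
  | insert a s ha ih =>
    rw [Finset.sum_insert ha]
    exact O.ord_add_ge (h a (by simp)) (ih fun i hi => h i (by simp [hi]))

theorem canSet_bdd (X : NormalModel K) (O : DVal K) (hO : X.IsPrimeDiv O) (ω : TopForm K)
    (hω : ω ≠ 0) : BddAbove (canSet O ω) := by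
  have := X.fin
  have := Fintype.ofFinite X.ι
  have hfin := finite_kaehler X
  obtain ⟨lam, hlam0, hlam⟩ := exists_coord hfin ω hω
  obtain ⟨i, hi, hfrac⟩ := exists_frac_ord X O hO
  let r : X.ι → Ω[K⁄ℂ] := fun j => KaehlerDifferential.D ℂ K ((X.g j : K) / X.g i)
  let B : ℤ := ∑ s : (Fin (Module.finrank K (Ω[K⁄ℂ])) → X.ι), |O.ord (lam fun l => r (s l))|
  refine ⟨B, ?_⟩
  rintro _ ⟨t, z', ht, rfl, hz', hD'⟩
  obtain ⟨z, hz, hD⟩ : ∃ z : Fin (Module.finrank K (Ω[K⁄ℂ])) → K, (∀ l, 0 ≤ O.ord (z l)) ∧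
      ∀ D : Fin (Module.finrank K (Ω[K⁄ℂ])) → Derivation ℂ K K,
        ω D = t * Matrix.det fun i j => D i (z j) := ⟨z', hz', hD'⟩
  obtain ⟨D, hD0⟩ : ∃ D : Fin (Module.finrank K (Ω[K⁄ℂ])) → Derivation ℂ K K, ω D ≠ 0 := by
    by_contra hcon
    push Not at hcon
    exact hω (AlternatingMap.ext hcon)
  have h1 : ω D = t * (lam (fun j => KaehlerDifferential.D ℂ K (z j)) * ω D) :=
    (hD D).trans (congrArg (fun y => t * y) (hlam z D))
  have h4 : t * lam (fun j => KaehlerDifferential.D ℂ K (z j)) = 1 := by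
    have h5 : (t * lam (fun j => KaehlerDifferential.D ℂ K (z j))) * ω D = 1 * ω D := by
      rw [one_mul]
      conv_rhs => rw [h1]
      ring
    exact mul_right_cancel₀ hD0 h5
  have hl0 : lam (fun j => KaehlerDifferential.D ℂ K (z j)) ≠ 0 := by
    intro h0; rw [h0, mul_zero] at h4; exact zero_ne_one h4
  have h5 := congrArg O.ord h4
  rw [O.ord_mul _ _ ht hl0, O.ord_one] at h5
  -- the expansion
  have h6 : ∀ l, ∃ c : X.ι → O.ring, ∑ j, c j • r j = KaehlerDifferential.D ℂ K (z l) := fun l =>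
    (Submodule.mem_span_range_iff_exists_fun O.ring).1 (D_mem X i O.ring hi hfrac (z l) (hz l))
  choose c hc using h6
  have h7 : lam (fun j => KaehlerDifferential.D ℂ K (z j)) =
      ∑ s : (Fin (Module.finrank K (Ω[K⁄ℂ])) → X.ι),
        (∏ l, (c l (s l) : K)) * lam fun l => r (s l) := by
    have h8 : (fun l => KaehlerDifferential.D ℂ K (z l)) =
        fun l => ∑ j, (c l j : K) • r j := by
      funext l
      rw [← hc l]
      rfl
    rw [h8]
    have h9 := MultilinearMap.map_sum lam.toMultilinearMap (fun l j => (c l j : K) • r j)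
    refine h9.trans ?_
    refine Finset.sum_congr rfl fun s _ => ?_
    exact MultilinearMap.map_smul_univ lam.toMultilinearMap (fun l => (c l (s l) : K))
      (fun l => r (s l))
  have h8 : -B ≤ O.ord (lam (fun j => KaehlerDifferential.D ℂ K (z j))) := by
    rw [h7] at hl0 ⊢
    refine (ord_sum_ge' O _ _ (-B) fun s _ => ?_).resolve_left hl0
    by_cases hc0 : ∏ l, (c l (s l) : K) = 0
    · left; rw [hc0, zero_mul]
    by_cases hr0 : (lam fun l => r (s l)) = 0
    · left; rw [hr0, mul_zero]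
    right
    rw [O.ord_mul' hc0 hr0]
    have h9 : 0 ≤ O.ord (∏ l, (c l (s l) : K)) := by
      have : ∏ l, (c l (s l) : K) ∈ O.ring := prod_mem fun l _ => (c l (s l)).2
      exact this
    have h10 : |O.ord (lam fun l => r (s l))| ≤ B :=
      Finset.single_le_sum (f := fun s : (Fin (Module.finrank K (Ω[K⁄ℂ])) → X.ι) =>
        |O.ord (lam fun l => r (s l))|) (fun s _ => abs_nonneg _) (Finset.mem_univ s)
    have h11 := neg_abs_le (O.ord (lam fun l => r (s l)))
    omega
  omega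

/-- A basis of the differentials of the form `d x i`. -/
theorem exists_basis_D (hfin : Module.Finite K (Ω[K⁄ℂ])) :
    ∃ x : Fin (Module.finrank K (Ω[K⁄ℂ])) → K, ∀ z, z ∈ Submodule.span K
      (Set.range fun i => KaehlerDifferential.D ℂ K (x i)) := by
  have hs : ⊤ ≤ Submodule.span K (Set.range (KaehlerDifferential.D ℂ K)) := by
    rw [KaehlerDifferential.span_range_derivation]
  let b := Module.Basis.ofSpan hs
  have hb : Set.range b ⊆ Set.range (KaehlerDifferential.D ℂ K) := Module.Basis.ofSpan_subset hs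
  have := Module.Finite.finite_basis b
  have := Fintype.ofFinite ((linearIndepOn_empty K id).extend (Set.empty_subset
    (Set.range (KaehlerDifferential.D ℂ K))))
  have hcard := Module.finrank_eq_card_basis b
  let e := Fintype.equivFinOfCardEq hcard.symm
  choose x hx using fun i => hb ⟨e.symm i, rfl⟩
  refine ⟨x, fun z => ?_⟩
  have h1 : z ∈ Submodule.span K (Set.range b) := by rw [b.span_eq]; trivial
  refine Submodule.span_mono ?_ h1
  rintro _ ⟨i, rfl⟩
  refine ⟨e i, ?_⟩
  simp only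
  rw [hx]
  simp

theorem canSet_nonempty (hfin : Module.Finite K (Ω[K⁄ℂ])) (O : DVal K) (ω : TopForm K)
    (hω : ω ≠ 0) : (canSet O ω).Nonempty := by
  obtain ⟨lam, hlam0, hlam⟩ := exists_coord hfin ω hω
  obtain ⟨x, hx⟩ := exists_basis_D hfin
  have h0 := coord_ne_zero lam hlam0 _ hx
  let y : Fin (Module.finrank K (Ω[K⁄ℂ])) → K := fun i => if 0 ≤ O.ord (x i) then x i else (x i)⁻¹
  let c : Fin (Module.finrank K (Ω[K⁄ℂ])) → K := fun i =>
    if 0 ≤ O.ord (x i) then 1 else - (x i)⁻¹ ^ 2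
  have hc : ∀ i, c i ≠ 0 := by
    intro i
    by_cases h : 0 ≤ O.ord (x i)
    · simp [c, h]
    · have hxi : x i ≠ 0 := by
        intro h1; rw [h1, O.ord_zero] at h; exact h le_rfl
      simp [c, h, hxi]
  have hcy : ∀ i, KaehlerDifferential.D ℂ K (y i) = c i • KaehlerDifferential.D ℂ K (x i) := by
    intro i
    by_cases h : 0 ≤ O.ord (x i)
    · simp [c, y, h]
    · simp only [c, y, h, if_false]
      rw [Derivation.leibniz_inv]
  have hy : ∀ i, 0 ≤ O.ord (y i) := by
    intro i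
    by_cases h : 0 ≤ O.ord (x i)
    · simp [y, h]
    · simp only [y, h, if_false]
      rw [O.ord_inv]; omega
  have h1 : (lam fun i => KaehlerDifferential.D ℂ K (y i)) ≠ 0 := by
    have h2 : (fun i => KaehlerDifferential.D ℂ K (y i)) =
        fun i => c i • KaehlerDifferential.D ℂ K (x i) := funext hcy
    rw [h2]
    have h3 := MultilinearMap.map_smul_univ lam.toMultilinearMap c
      (fun i => KaehlerDifferential.D ℂ K (x i))
    have h4 : (lam fun i => c i • KaehlerDifferential.D ℂ K (x i)) =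
        (∏ i, c i) • lam fun i => KaehlerDifferential.D ℂ K (x i) := h3
    rw [h4]
    exact smul_ne_zero (Finset.prod_ne_zero_iff.2 fun i _ => hc i) h0
  refine ⟨_, _, y, inv_ne_zero h1, rfl, hy, fun D => ?_⟩
  have h2 := hlam y D
  have h3 : ω D = (lam fun i => KaehlerDifferential.D ℂ K (y i))⁻¹ *
      ((lam fun i => KaehlerDifferential.D ℂ K (y i)) * ω D) := by
    rw [← mul_assoc, inv_mul_cancel₀ h1, one_mul]
  exact h3.trans (congrArg (fun z => _ * z) h2.symm)

end

end Pool.Agent.LibCov80
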