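import Pool.Agent.LibCov80.Pull
import Pool.Agent.LibGMC.Neg

/-! Norms: effective classes on a finite cover are effective below. -/

open scoped Classical

namespace Pool.Agent.LibCov80

open Pool.Agent.LibGMM Pool.Agent.LibGMC

section

variable {k : Type} [Field k] [Algebra ℂ k] (q : DVal k)

theorem ring_pid : IsPrincipalIdealRing q.ring := by
  refine ⟨fun I => ?_⟩
  by_cases hI : I = ⊥
  · subst hI; exact ⟨⟨0, by simp⟩⟩
  have hex : ∃ n : ℕ, ∃ t : q.ring, t ∈ I ∧ (t : k) ≠ 0 ∧ q.ord (t : k) = n := by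
    obtain ⟨t, ht, ht0⟩ := Submodule.exists_mem_ne_zero_of_ne_bot hI
    refine ⟨(q.ord (t : k)).toNat, t, ht, fun h => ht0 (Subtype.ext h), ?_⟩
    have : 0 ≤ q.ord (t : k) := t.2
    omega
  obtain ⟨t, ht, ht0, hn⟩ := Nat.find_spec hex
  have hmin := fun n (hn : n < Nat.find hex) => Nat.find_min hex hn
  refine ⟨⟨t, le_antisymm (fun s hs => ?_) ?_⟩⟩
  · rw [Ideal.submodule_span_eq, Ideal.mem_span_singleton']
    by_cases hs0 : (s : k) = 0
    · exact ⟨0, by rw [zero_mul]; exact (Subtype.ext hs0).symm⟩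
    have hle : q.ord (t : k) ≤ q.ord (s : k) := by
      by_contra hcon
      push Not at hcon
      have hs2 : 0 ≤ q.ord (s : k) := s.2
      exact hmin (q.ord (s : k)).toNat (by omega) ⟨s, hs, hs0, by omega⟩
    refine ⟨⟨(s : k) / t, ?_⟩, ?_⟩
    · change 0 ≤ q.ord ((s : k) / t)
      rw [q.ord_div hs0 ht0]; omega
    · apply Subtype.ext
      change (s : k) / t * t = s
      field_simp
  · rw [Ideal.submodule_span_eq, Ideal.span_singleton_le_iff_mem]; exact ht

theorem ring_frac : IsFractionRing q.ring k := by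
  refine IsFractionRing.of_field q.ring k ?_
  intro z
  by_cases hz : 0 ≤ q.ord z
  · exact ⟨⟨z, hz⟩, 1, by simp⟩
  · have h1 : 0 ≤ q.ord z⁻¹ := by rw [q.ord_inv]; omega
    refine ⟨1, ⟨z⁻¹, h1⟩, ?_⟩
    change z = 1 / z⁻¹
    rw [one_div, inv_inv]

end

section

variable {k : Type} [Field k] [Algebra ℂ k] {K : Type} [Field K] [Algebra ℂ K] [Algebra k K]
  [IsScalarTower ℂ k K] [FiniteDimensional k K]

omit [Algebra ℂ K] [IsScalarTower ℂ k K] in
theorem isSeparable : Algebra.IsSeparable k K := by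
  have : CharZero k := charZero_of_injective_algebraMap (algebraMap ℂ k).injective
  infer_instance

/-- An element of `K` which is regular at all discrete valuations over `q` is integral over the ring
of `q`. -/
theorem integral_of_over (q : DVal k) (w : K) (hw : ∀ Q e, Over Q q e → 0 ≤ Q.ord w) :
    IsIntegral q.ring w := by
  classical
  by_contra hcon
  have hsep := isSeparable (k := k) (K := K)
  have hpid := ring_pid q
  have hfr := ring_frac q
  let B₀ := integralClosure q.ring K
  let B : Subalgebra ℂ K := B₀.restrictScalars ℂ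
  have hmem : ∀ x : K, x ∈ B ↔ IsIntegral q.ring x := fun x => Iff.rfl
  have hN : IsNoetherianRing B₀ := IsIntegralClosure.isNoetherianRing q.ring k K B₀
  have hF : IsFractionRing B₀ K := integralClosure.isFractionRing_of_finite_extension k K
  have hI : IsIntegrallyClosed B₀ := integralClosure.isIntegrallyClosedOfFiniteExtension k
  -- the ideal of denominators
  let I : Ideal B :=
    { carrier := {b | (b : K) * w ∈ B}
      add_mem' := fun {a b} ha hb => by
        change ((a : K) + b) * w ∈ B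
        rw [add_mul]
        exact B.add_mem ha hb
      zero_mem' := by
        change (0 : K) * w ∈ B
        rw [zero_mul]; exact B.zero_mem
      smul_mem' := fun a b hb => by
        change ((a : K) * b) * w ∈ B
        rw [mul_assoc]
        exact B.mul_mem a.2 hb }
  have hIne : I ≠ ⊤ := by
    rw [Ne, Ideal.eq_top_iff_one]
    intro h1
    have h2 : (1 : K) * w ∈ B := h1
    rw [one_mul] at h2
    exact hcon h2
  obtain ⟨M, hM, hIM⟩ := Ideal.exists_le_maximal I hIne
  have hMp := hM.isPrime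
  have hN' : IsNoetherianRing B := hN
  have hF' : IsFractionRing B K := hF
  have hI' : IsIntegrallyClosed B := hI
  obtain ⟨P', hP', hle, hD, hP'x⟩ := exists_dvr_of_not_mem (K := K) M w (by
    intro a b hb h
    apply hb
    apply hIM
    change (b : K) * w ∈ B
    have hb0 : (b : K) ≠ 0 := by
      intro h0
      apply hb
      have : b = 0 := Subtype.ext h0
      rw [this]; exact M.zero_mem
    have h1 : (b : K) * w = a := by
      rw [h]
      change (b : K) * ((a : K) / b) = a
      field_simp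
    rw [h1]
    exact a.2)
  obtain ⟨Q, hQ1, hQ2⟩ := dval_of_dvr B (fun x => by
    obtain ⟨a, b, hb, hab⟩ := IsFractionRing.div_surjective (A := B) x
    refine ⟨a, a.2, b, b.2, ?_, hab.symm⟩
    intro h0
    exact nonZeroDivisors.ne_zero hb (Subtype.ext h0)) P'
  have hneg : Q.ord w < 0 := by
    by_contra hc
    obtain ⟨a, b, hb, hab⟩ := hQ2 w (not_lt.1 hc)
    exact hP'x a b hb hab
  obtain ⟨q', e, hq'⟩ := exists_over (k := k) Q
  have heq : q = q' := DVal.ext_ring fun x hx => by
    rw [← hq'.nonneg_iff]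
    have h1 : algebraMap k K x ∈ B := by
      rw [hmem]
      have := isIntegral_algebraMap (R := q.ring) (A := K) (x := ⟨x, hx⟩)
      exact this
    exact (hQ1 ⟨_, h1⟩).1
  rw [← heq] at hq'
  have := hw Q e hq'
  omega

omit [IsScalarTower ℂ k K] [FiniteDimensional k K] in
theorem norm_nonneg (q : DVal k) (w : K) (hw : IsIntegral q.ring w) :
    0 ≤ q.ord (Algebra.norm k w) := by
  have hpid := ring_pid q
  have hfr := ring_frac q
  have h1 := Algebra.isIntegral_norm k hw
  obtain ⟨y, hy⟩ := IsIntegrallyClosed.isIntegral_iff.1 h1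
  rw [← hy]
  exact y.2

variable {J : Type} [Fintype J]

theorem effZ_norm {X : NormalModel k} {Y : NormalModel K} (h : IsCover X Y) (G : J → Finset kˣ)
    (hG : ∀ j, X.BPF (G j)) (a : J → ℤ) (ha : a ∈ EffZ Y fun j => up K (G j)) :
    (fun j => (a j : ℝ)) ∈ EffR X G := by
  classical
  obtain ⟨z, hz⟩ := ha
  set n := Module.finrank k K with hn
  have hnpos : 0 < n := Module.finrank_pos
  refine ⟨Finsupp.single (Units.map (Algebra.norm k) z) (1 / (n : ℝ)), fun q hq => ?_⟩
  choose t ht hsys using fun j => exists_sys q (G j) (bpf_nonempty X _ (hG j))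
  set w : Kˣ := z * ∏ j, upU K (t j) ^ (- a j) with hw
  have hQw : ∀ Q e, Over Q q e → 0 ≤ Q.ord (w : K) := by
    intro Q e hQ
    have h1 := hz Q (prime_up h hQ hq)
    have h2 : ∀ j, sysZ Q (up K (G j)) = - Q.ord ((upU K (t j) : Kˣ) : K) := by
      intro j
      have h3 := hQ.sys_up (G j)
      have h4 : (up K (G j)).Nonempty := ⟨_, Finset.mem_image_of_mem _ (ht j)⟩
      rw [← sysZ_cast Q _ h4, hsys j] at h3
      have h5 : Q.ord ((upU K (t j) : Kˣ) : K) = e * q.ord (t j : k) := hQ.ord _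
      rw [h5]
      have h6 : ((sysZ Q (up K (G j)) : ℤ) : ℝ) = ((-(e * q.ord (t j : k)) : ℤ) : ℝ) := by
        rw [h3]; push_cast; ring
      exact_mod_cast h6
    rw [hw, Units.val_mul, Q.ord_mul _ _ (Units.ne_zero _) (Units.ne_zero _), ord_prod_zpow'']
    have h3 : ∑ j, a j * sysZ Q (up K (G j)) =
        ∑ j, Q.ord ((upU K (t j) : Kˣ) : K) * (- a j) :=
      Finset.sum_congr rfl fun j _ => by rw [h2 j]; ring
    rwa [h3] at h1
  have h1 := norm_nonneg q (w : K) (integral_of_over q _ hQw)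
  have h2 : Algebra.norm k (w : K) =
      ((Units.map (Algebra.norm k) z * ∏ j, (t j) ^ ((n : ℤ) * (- a j)) : kˣ) : k) := by
    have h3 : ∀ u : Kˣ, Algebra.norm k (u : K) = ((Units.map (Algebra.norm k) u : kˣ) : k) :=
      fun u => rfl
    rw [h3, hw, map_mul, map_prod]
    congr 2
    refine Finset.prod_congr rfl fun j _ => ?_
    rw [map_zpow]
    have h4 : Units.map (Algebra.norm k) (upU K (t j)) = t j ^ n := by
      apply Units.ext
      rw [Units.val_pow_eq_pow_val]
      change Algebra.norm k (algebraMap k K (t j : k)) = _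
      rw [Algebra.norm_algebraMap]
    rw [h4, ← zpow_natCast, ← zpow_mul]
  rw [h2, Units.val_mul, q.ord_mul _ _ (Units.ne_zero _) (Units.ne_zero _), ord_prod_zpow''] at h1
  rw [ordR_single]
  have h3 : ∀ j, (a j : ℝ) * sys q (G j) = - ((a j : ℝ) * q.ord (t j : k)) := fun j => by
    rw [hsys j]; ring
  simp only [h3]
  have h4 : (0 : ℝ) ≤ ((q.ord ((Units.map (Algebra.norm k) z : kˣ) : k) +
    ∑ j, q.ord (t j : k) * ((n : ℤ) * (- a j)) : ℤ) : ℝ) := by exact_mod_cast h1
  push_cast at h4
  have h5 : ∑ j, (q.ord (t j : k) : ℝ) * ((n : ℝ) * (- (a j : ℝ))) =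
      (n : ℝ) * ∑ j, - ((a j : ℝ) * q.ord (t j : k)) := by
    rw [Finset.mul_sum]
    exact Finset.sum_congr rfl fun j _ => by ring
  rw [h5] at h4
  have h6 : (0 : ℝ) < n := by exact_mod_cast hnpos
  have h7 : ∑ j, - ((a j : ℝ) * (q.ord (t j : k) : ℝ)) +
      1 / (n : ℝ) * (q.ord ((Units.map (Algebra.norm k) z : kˣ) : k) : ℝ) =
      1 / (n : ℝ) * ((q.ord ((Units.map (Algebra.norm k) z : kˣ) : k) : ℝ) +
        (n : ℝ) * ∑ j, - ((a j : ℝ) * q.ord (t j : k))) := by
    field_simp
    ring
  rw [h7]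
  exact mul_nonneg (by positivity) h4

theorem effR_norm {X : NormalModel k} {Y : NormalModel K} (h : IsCover X Y) (G : J → Finset kˣ)
    (hG : ∀ j, X.BPF (G j)) (b : J → ℝ) (hb : b ∈ EffR Y fun j => up K (G j)) : b ∈ EffR X G := by
  obtain ⟨N, c, a, hc, ha, -, hba⟩ := decomp Y (fun j => up K (G j)) (fun j => h.bpf (hG j)) ∅ b hb
    (by simp)
  have h1 : b = ∑ n, c n • fun j => (a n j : ℝ) := by
    funext j
    rw [Finset.sum_apply, hba j]
    rfl
  rw [h1]
  refine Finset.sum_induction _ (fun b => b ∈ EffR X G) (fun b b' hb hb' => effR_add _ _ hb hb')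
    (effR_of_nonneg _ _ hG fun _ => le_rfl) fun n _ => effR_smul _ _ (hc n).le
      (effZ_norm h G hG (a n) (ha n))

end

end Pool.Agent.LibCov80
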