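import Pool.Agent.LibCov80.Exist

/-! The pull-back of a big divisor to a finite cover is big. -/

open scoped Classical

namespace Pool.Agent.LibCov80

open Pool.Agent.LibGMM Pool.Agent.LibGMC

variable {k : Type} [Field k] [Algebra ℂ k] {K : Type} [Field K] [Algebra ℂ K] [Algebra k K]
  [IsScalarTower ℂ k K] [FiniteDimensional k K]

omit [Algebra ℂ K] [Algebra k K] [IsScalarTower ℂ k K] [FiniteDimensional k K] [Field K] in
/-- The value of the hyperplane class. -/
theorem exists_hyperplane (X : NormalModel k) (q : DVal k) :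
    ∃ d : X.ι, (∀ a ∈ chart X.g d, 0 ≤ q.ord a) ∧ X.hyperplane q = - (q.ord (X.g d) : ℝ) ∧
      ∀ j, - (q.ord (X.g j) : ℝ) ≤ X.hyperplane q := by
  have := X.fin
  have := X.ne
  obtain ⟨d, hd⟩ := Finite.exists_min fun j : X.ι => q.ord (X.g j : k)
  have h1 : X.hyperplane q = - (q.ord (X.g d) : ℝ) := by
    unfold NormalModel.hyperplane
    congr 1
    exact le_antisymm (ciInf_le (Finite.bddBelow_range _) d)
      (le_ciInf fun t => by exact_mod_cast hd t)
  refine ⟨d, fun a ha => ?_, h1, fun j => ?_⟩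
  · have h2 : chart X.g d ≤ q.ring := by
      unfold chart
      rw [Algebra.adjoin_le_iff]
      rintro _ ⟨j, rfl⟩
      change 0 ≤ q.ord ((X.g j : k) / X.g d)
      rw [q.ord_div (Units.ne_zero _) (Units.ne_zero _)]
      have := hd j
      omega
    exact h2 ha
  · rw [h1]
    have := hd j
    have h3 : (q.ord (X.g d : k) : ℝ) ≤ q.ord (X.g j : k) := by exact_mod_cast this
    linarith

omit [IsScalarTower ℂ k K] [FiniteDimensional k K] in
/-- An element integral over a ring of elements regular at `q` is regular at `Q`. -/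
theorem Over.nonneg_of_integral {Q : DVal K} {q : DVal k} {e : ℕ} (h : Over Q q e)
    {A : Subalgebra ℂ k} (hA : ∀ a ∈ A, 0 ≤ q.ord a) {x : K} (hx : IsIntegral A x) :
    0 ≤ Q.ord x := by
  obtain ⟨f, hf, hf0⟩ := hx
  let φ : A →+* Q.toVal := (algebraMap A K).codRestrict Q.toVal.toSubring
    fun a => (Q.mem_toVal).2 ((h.nonneg_iff _).2 (hA a a.2))
  have h2 : IsIntegral Q.toVal x := by
    refine ⟨f.map φ, hf.map _, ?_⟩
    rw [Polynomial.eval₂_map]
    exact hf0
  obtain ⟨z, hz⟩ := IsIntegrallyClosed.isIntegral_iff.1 h2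
  rw [← hz]
  exact (Q.mem_toVal).1 z.2

theorem hyperplane_le (X : NormalModel k) (Y : NormalModel K) :
    ∃ (M : ℕ) (z : Kˣ), 0 < M ∧ ∀ Q q e, Over Q q e →
      Y.hyperplane Q ≤ M * (e * X.hyperplane q) + (Q.ord (z : K) : ℝ) := by
  have := Y.fin
  have := Y.ne
  have hne := X.ne
  have hsep := isSeparable (k := k) (K := K)
  have i₀ : X.ι := Classical.arbitrary _
  have := chart_frac X i₀
  obtain ⟨b, hb0, hb⟩ := exists_integral_multiples (chart X.g i₀) k
    (Set.finite_range fun c => (Y.g c : K)).toFinset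
  have hb0' : algebraMap k K (b : k) ≠ 0 := by
    intro h
    exact hb0 (Subtype.ext ((map_eq_zero _).1 h))
  have hb' : ∀ c, IsIntegral (chart X.g i₀) (algebraMap k K (b : k) * (Y.g c : K)) := by
    intro c
    have := hb (Y.g c : K) (by rw [Set.Finite.mem_toFinset]; exact ⟨c, rfl⟩)
    rwa [Algebra.smul_def] at this
  choose M hM using fun c => integral_shift X.g i₀ (hb' c)
  obtain ⟨N, hN1, hN⟩ : ∃ N : ℕ, 0 < N ∧ ∀ v, M v ≤ N := by
    have := Fintype.ofFinite Y.ι
    refine ⟨Finset.univ.sup M + 1, by omega, fun v => ?_⟩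
    have : M v ≤ Finset.univ.sup M := Finset.le_sup (Finset.mem_univ v)
    omega
  refine ⟨N, Units.mk0 _ hb0' * upU K (X.g i₀) ^ N, hN1, fun Q q e hQ => ?_⟩
  obtain ⟨d, hd, hdX, -⟩ := exists_hyperplane X q
  obtain ⟨c, -, hcY, -⟩ := exists_hyperplane Y Q
  have h1 := hQ.nonneg_of_integral hd (hM c N (hN c) d)
  have h2 : Q.ord (algebraMap k K (b : k) * (Y.g c : K) *
      algebraMap k K (((X.g i₀ : k) / X.g d) ^ N)) = Q.ord (algebraMap k K (b : k)) +
        Q.ord (Y.g c : K) + e * (N * (q.ord (X.g i₀ : k) - q.ord (X.g d : k))) := by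
    have h3 : ((X.g i₀ : k) / X.g d) ≠ 0 := div_ne_zero (Units.ne_zero _) (Units.ne_zero _)
    rw [Q.ord_mul' (mul_ne_zero hb0' (Units.ne_zero _)) ((map_ne_zero _).2 (pow_ne_zero _ h3)),
      Q.ord_mul' hb0' (Units.ne_zero _), hQ.ord (_ ^ N), q.ord_pow,
      q.ord_div (Units.ne_zero _) (Units.ne_zero _)]
  rw [h2] at h1
  have h4 : Q.ord ((Units.mk0 _ hb0' * upU K (X.g i₀) ^ N : Kˣ) : K) =
      Q.ord (algebraMap k K (b : k)) + N * (e * q.ord (X.g i₀ : k)) := by
    rw [Units.val_mul, Q.ord_mul' (Units.ne_zero _) (Units.ne_zero _), Units.val_pow_eq_pow_val,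
      Q.ord_pow]
    congr 2
    exact hQ.ord _
  rw [h4, hdX, hcY]
  have h5 : (0 : ℝ) ≤ ((Q.ord (algebraMap k K (b : k)) +
        Q.ord (Y.g c : K) + e * (N * (q.ord (X.g i₀ : k) - q.ord (X.g d : k))) : ℤ) : ℝ) := by
    exact_mod_cast h1
  push_cast at h5 ⊢
  linarith

theorem big_up {X : NormalModel k} {Y : NormalModel K} (h : IsCover X Y)
    {D' : DVal K → ℝ} {D : DVal k → ℝ} (hD : Pulls D' D) (hb : X.Big D) : Y.Big D' := by
  obtain ⟨ε, hε, u, hu⟩ := hb
  obtain ⟨M, z, hM, hz⟩ := hyperplane_le X Y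
  have hM' : (0 : ℝ) < M := by exact_mod_cast hM
  refine ⟨ε / M, div_pos hε hM', upF u + (ε / M) • Finsupp.single z 1, fun Q hQ => ?_⟩
  obtain ⟨q, e, hq⟩ := exists_over (k := k) Q
  have h1 := hz Q q e hq
  have h2 := hu q (prime_down h hq hQ)
  have he : (0 : ℝ) < e := by exact_mod_cast hq.pos
  simp only at h2 ⊢
  rw [ordR_add, ordR_smul, ordR_single, hq.ordR_up, hD Q q e hq, one_mul]
  have h3 := mul_nonneg he.le h2
  have h4 : ε / M * Y.hyperplane Q ≤ ε / M * (M * (e * X.hyperplane q) + (Q.ord (z : K) : ℝ)) :=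
    mul_le_mul_of_nonneg_left h1 (div_pos hε hM').le
  have h5 : ε / M * (M * (e * X.hyperplane q) + (Q.ord (z : K) : ℝ)) =
      ε * (e * X.hyperplane q) + ε / M * (Q.ord (z : K) : ℝ) := by
    field_simp
  rw [h5] at h4
  nlinarith

end Pool.Agent.LibCov80
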