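import Pool.Agent.LibGMC.System

/-!
Finite covers of normal projective varieties.

`k` is the function field of `X`, `K` a finite extension of it, the function field of the cover `Y`.
-/

open scoped Classical

namespace Pool.Agent.LibCov80

open Pool.Agent.LibGMM Pool.Agent.LibGMC

section

variable {k : Type} [Field k] [Algebra ℂ k] (K : Type) [Field K] [Algebra ℂ K] [Algebra k K]

/-- The rational function `u` on `X` as a rational function on the cover. -/
noncomputable def upU : kˣ →* Kˣ := Units.map (algebraMap k K : k →* K)

/-- The rational functions of `G` as rational functions on the cover. -/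
noncomputable def up (G : Finset kˣ) : Finset Kˣ := G.image (upU K)

end

section

variable {k : Type} [Field k] [Algebra ℂ k] {K : Type} [Field K] [Algebra ℂ K] [Algebra k K]

/-- The inclusion of function fields `k → K` is given by a finite morphism `Y → X`, so that `Y` is the
normalisation of `X` in `K`: every local ring of `Y` contains the coordinate ring of a chart of `X` and
is a localisation of its integral closure in `K`. -/
def IsCover (X : NormalModel k) (Y : NormalModel K) : Prop :=
  ∀ p : Y.Pt, ∃ i : X.ι, (∀ a ∈ chart X.g i, algebraMap k K a ∈ Y.loc p) ∧
    ∀ y ∈ Y.loc p, ∃ a b : K, IsIntegral (chart X.g i) a ∧ IsIntegral (chart X.g i) b ∧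
      b⁻¹ ∈ Y.loc p ∧ b ≠ 0 ∧ y = a / b

end

end Pool.Agent.LibCov80
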