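import Pool.Agent.LibCov80.Loc

/-! The prime divisors of a cover are the discrete valuations over the prime divisors. -/

open scoped Classical

namespace Pool.Agent.LibCov80

open Pool.Agent.LibGMM Pool.Agent.LibGMC

variable {k : Type} [Field k] [Algebra ℂ k] {K : Type} [Field K] [Algebra ℂ K] [Algebra k K]
  [IsScalarTower ℂ k K]

/-- An element of `K` which is integral over a chart of `X` contained in a local ring of `Y` is in
that local ring. -/
theorem mem_loc_of_isIntegral {X : NormalModel k} {Y : NormalModel K} {i : X.ι} {p : Y.Pt}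
    (hi : ∀ a ∈ chart X.g i, algebraMap k K a ∈ Y.loc p) {y : K}
    (hy : IsIntegral (chart X.g i) y) : y ∈ Y.loc p := by
  obtain ⟨f, hf, hfy⟩ := hy
  refine Y.loc_normal p y (f.map (algebraMap (chart X.g i) K)) (hf.map _) (fun n => ?_) ?_
  · rw [Polynomial.coeff_map]
    exact hi _ (f.coeff n).2
  · rw [Polynomial.eval_map]
    exact hfy

theorem prime_up [Algebra.IsAlgebraic k K] {X : NormalModel k} {Y : NormalModel K}
    (h : IsCover X Y) {Q : DVal K} {q : DVal k} {e : ℕ} (hQ : Over Q q e) (hq : X.IsPrimeDiv q) :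
    Y.IsPrimeDiv Q := by
  obtain ⟨p, hp⟩ := Y.exists_centre Q
  obtain ⟨p', h1, h2, h3⟩ := h.image p
  have hp' := hQ.centre hp h1 h2
  obtain ⟨p₀, hp₀, hring⟩ := hq
  refine ⟨p, hp, fun y hy => ?_⟩
  have hL : ∀ c ∈ (algebraMap k K).fieldRange, 0 ≤ Q.ord c → c ∈ Y.loc p := by
    rintro _ ⟨c, rfl⟩ hc
    have hc' : c ∈ X.loc p₀ := hring c ((hQ.nonneg_iff c).1 hc)
    exact h1 c (loc_le_of_centres X q p₀ p' hp₀ hp' c hc')
  obtain ⟨b, hbV, hbV', hb0, ⟨q₁, hq1m, hq1c, hq1e⟩, ⟨q₂, hq2m, hq2c, hq2e⟩⟩ :=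
    exists_integral_denominator (algebraMap k K).fieldRange (fun z => by
      obtain ⟨g, hg0, hg⟩ := Algebra.IsAlgebraic.isAlgebraic (R := k) z
      refine ⟨g.map (algebraMap k K), ?_, ?_, ?_⟩
      · rw [Ne, Polynomial.map_eq_zero]; exact hg0
      · intro n
        rw [Polynomial.coeff_map]
        exact ⟨_, rfl⟩
      · rw [Polynomial.eval_map, ← Polynomial.aeval_def]; exact hg) Q.toVal y
      ((Q.mem_toVal).2 hy)
  have hb1 : b ∈ Y.loc p := Y.loc_normal p b q₁ hq1m
    (fun n => hL _ (hq1c n).1 ((Q.mem_toVal).1 (hq1c n).2)) hq1e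
  have hb2 : b * y ∈ Y.loc p := Y.loc_normal p (b * y) q₂ hq2m
    (fun n => hL _ (hq2c n).1 ((Q.mem_toVal).1 (hq2c n).2)) hq2e
  have hordb : Q.ord b = 0 := by
    have h1 := (Q.mem_toVal).1 hbV
    have h2 := (Q.mem_toVal).1 hbV'
    rw [Q.ord_inv] at h2
    omega
  have hb3 : b⁻¹ ∈ Y.loc p := inv_mem_of_ord_eq_zero Y Q p hp b hb1 hb0 hordb
  have := Y.mul_mem_loc p hb3 hb2
  rwa [← mul_assoc, inv_mul_cancel₀ hb0, one_mul] at this

theorem prime_down {X : NormalModel k} {Y : NormalModel K}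
    (h : IsCover X Y) {Q : DVal K} {q : DVal k} {e : ℕ} (hQ : Over Q q e) (hQp : Y.IsPrimeDiv Q) :
    X.IsPrimeDiv q := by
  obtain ⟨p, hp, hring⟩ := hQp
  obtain ⟨p', h1, h2, h3⟩ := h.image p
  have hp' := hQ.centre hp h1 h2
  refine ⟨p', hp', fun x hx => ?_⟩
  by_contra hcon
  obtain ⟨q', hq', hth, hneg⟩ := X.exists_primeDiv_neg p' x hcon
  -- the rings
  have hRI : IsIntegrallyClosed (chart X.g p'.i) := by
    have hfr : IsFractionRing (chart X.g p'.i) k := by
      refine IsFractionRing.of_field (chart X.g p'.i) k ?_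
      intro z
      obtain ⟨a, ha, b, hb, hb0, hab⟩ := X.frac p'.i z
      exact ⟨⟨a, ha⟩, ⟨b, hb⟩, hab⟩
    rw [isIntegrallyClosed_iff k]
    intro y hy
    exact ⟨⟨y, X.normal p'.i y hy⟩, rfl⟩
  let S := integralClosure (chart X.g p'.i) K
  have hSloc : ∀ s : S, (s : K) ∈ Y.loc p := fun s => mem_loc_of_isIntegral
    (fun a ha => h1 a ⟨⟨a, ha⟩, 1, fun h => p'.prime.ne_top ((Ideal.eq_top_iff_one _).2 h),
      by simp⟩) s.2
  -- the prime ideal of `Q` in `S`
  let QS : Ideal S :=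
    { carrier := {s | (s : K) ∈ maxI Y p}
      add_mem' := fun {a b} ha hb => maxI_add Y p ha hb
      zero_mem' := ⟨0, 1, p.P.zero_mem, fun h => p.prime.ne_top ((Ideal.eq_top_iff_one _).2 h),
        by simp⟩
      smul_mem' := fun a b hb => maxI_mul Y p (hSloc a) hb }
  have hQS : ∀ s : S, s ∈ QS ↔ (s : K) ∈ maxI Y p := fun s => Iff.rfl
  have hQSp : QS.IsPrime := by
    refine ⟨?_, ?_⟩
    · rw [Ne, Ideal.eq_top_iff_one, hQS]
      intro h4
      have h5 := inv_notMem_loc Y p h4 one_ne_zero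
      apply h5
      have := Y.const_mem_loc p 1
      simpa using this
    · intro a b hab
      exact maxI_prime Y p (hSloc a) (hSloc b) hab
  -- the prime ideal of `q'`
  have hq'nn : ∀ a : chart X.g p'.i, 0 ≤ q'.ord (a : k) := fun a =>
    hth _ ⟨a, 1, fun h => p'.prime.ne_top ((Ideal.eq_top_iff_one _).2 h), by simp⟩
  let P' : Ideal (chart X.g p'.i) :=
    { carrier := {a | (a : k) = 0 ∨ 1 ≤ q'.ord (a : k)}
      add_mem' := fun {a b} ha hb => q'.ord_add_ge ha hb
      zero_mem' := Or.inl rfl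
      smul_mem' := fun a b hb => by
        by_cases ha : (a : k) = 0
        · left; change (a : k) * b = 0; rw [ha, zero_mul]
        rcases hb with hb | hb
        · left; change (a : k) * b = 0; rw [hb, mul_zero]
        · right
          change 1 ≤ q'.ord ((a : k) * b)
          by_cases hb0 : (b : k) = 0
          · rw [hb0, q'.ord_zero] at hb; omega
          rw [q'.ord_mul' ha hb0]
          have := hq'nn a
          omega }
  have hP' : ∀ a : chart X.g p'.i, a ∈ P' ↔ ((a : k) = 0 ∨ 1 ≤ q'.ord (a : k)) := fun a => Iff.rfl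
  have hP'p : P'.IsPrime := by
    refine ⟨?_, ?_⟩
    · rw [Ne, Ideal.eq_top_iff_one, hP']
      rintro (h4 | h4)
      · exact one_ne_zero h4
      · have : q'.ord ((1 : chart X.g p'.i) : k) = 0 := q'.ord_one
        omega
    · intro a b hab
      rw [hP'] at hab ⊢
      rw [hP']
      by_cases ha : (a : k) = 0
      · exact Or.inl (Or.inl ha)
      by_cases hb : (b : k) = 0
      · exact Or.inr (Or.inl hb)
      rcases hab with hab | hab
      · exact absurd hab (mul_ne_zero ha hb)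
      · have h4 : q'.ord ((a * b : chart X.g p'.i) : k) = q'.ord (a : k) + q'.ord (b : k) :=
          q'.ord_mul' ha hb
        have := hq'nn a
        have := hq'nn b
        omega
  have hle : P' ≤ p'.P := by
    intro a ha
    by_contra ha'
    have h4 : 0 ≤ q'.ord ((1 : k) / a) := hth _ ⟨1, a, ha', by simp⟩
    have ha0 : (a : k) ≠ 0 := coe_ne X p' ha'
    rw [q'.ord_div one_ne_zero ha0, q'.ord_one] at h4
    rcases (hP' a).1 ha with h5 | h5
    · exact ha0 h5
    · omega
  have := p'.prime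
  have hlo : QS.LiesOver p'.P := by
    refine ⟨?_⟩
    ext a
    rw [h2]
    exact Iff.rfl
  obtain ⟨QS', hle', hQS'p, hlo'⟩ := Ideal.exists_ideal_le_liesOver_of_le (p := P') (q := p'.P) QS hle
  have hP'iff : ∀ a : chart X.g p'.i, a ∈ P' ↔ algebraMap (chart X.g p'.i) S a ∈ QS' := by
    intro a
    rw [hlo'.over]
    exact Iff.rfl
  -- `QS'` is not zero
  obtain ⟨t, ht⟩ := q'.exists_ord_one
  obtain ⟨a, ha, b, hb, hb0, hab⟩ := X.frac p'.i t
  have ht0 : t ≠ 0 := by rintro rfl; rw [q'.ord_zero] at ht; exact zero_ne_one ht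
  have ha0 : a ≠ 0 := by rintro rfl; rw [zero_div] at hab; exact ht0 hab
  have haP' : (⟨a, ha⟩ : chart X.g p'.i) ∈ P' := by
    rw [hP']
    right
    rw [hab, q'.ord_div ha0 hb0] at ht
    have : 0 ≤ q'.ord b := hq'nn ⟨b, hb⟩
    change 1 ≤ q'.ord a
    omega
  set s : S := algebraMap (chart X.g p'.i) S ⟨a, ha⟩ with hs
  have hsQ : s ∈ QS' := (hP'iff _).1 haP'
  have hs0 : (s : K) ≠ 0 := by
    change algebraMap k K a ≠ 0
    exact (map_ne_zero _).2 ha0
  have hge : QS ≤ QS' := by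
    intro t ht
    by_cases ht0 : (t : K) = 0
    · have : t = 0 := Subtype.ext ht0
      rw [this]; exact QS'.zero_mem
    have hts : 0 < Q.ord (t : K) :=
      ((centre_maxI Y Q p hp _ (hSloc t)).1 ((hQS t).1 ht)).resolve_left ht0
    have hss : 0 < Q.ord (s : K) :=
      ((centre_maxI Y Q p hp _ (hSloc s)).1 ((hQS s).1 (hle' hsQ))).resolve_left hs0
    set n := (Q.ord (s : K)).toNat with hn
    have h4 : 0 ≤ Q.ord ((t : K) ^ n / s) := by
      rw [Q.ord_div (pow_ne_zero _ ht0) hs0, Q.ord_pow]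
      have h5 : (n : ℤ) = Q.ord (s : K) := by rw [hn, Int.toNat_of_nonneg hss.le]
      rw [h5]
      nlinarith
    obtain ⟨c, d, hc, hd, hd', hd0, hcd⟩ := h3 _ (hring _ h4)
    have hdQ : (⟨d, hd⟩ : S) ∉ QS := by
      intro h5
      exact inv_notMem_loc Y p ((hQS _).1 h5) hd0 hd'
    have h6 : (⟨d, hd⟩ : S) * t ^ n = ⟨c, hc⟩ * s := by
      apply Subtype.ext
      change d * (t : K) ^ n = c * s
      rw [div_eq_div_iff hs0 hd0] at hcd
      linear_combination hcd
    have h7 : (⟨d, hd⟩ : S) * t ^ n ∈ QS' := by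
      rw [h6]; exact QS'.mul_mem_left _ hsQ
    rcases hQS'p.mem_or_mem h7 with h8 | h8
    · exact absurd (hle' h8) hdQ
    · exact hQS'p.mem_of_pow_mem _ h8
  -- hence `P' = P`
  have hPeq : ∀ a : chart X.g p'.i, a ∈ p'.P ↔ (a = 0 ∨ 0 < q'.ord (a : k)) := by
    intro a
    have h4 : a ∈ P' ↔ a ∈ p'.P := by
      rw [hP'iff, show (algebraMap (chart X.g p'.i) S a ∈ QS' ↔ algebraMap (chart X.g p'.i) S a ∈ QS)
        from ⟨fun h => hle' h, fun h => hge h⟩, hlo.over]
      exact Iff.rfl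
    rw [← h4, hP']
    constructor
    · rintro (h5 | h5)
      · exact Or.inl (Subtype.ext h5)
      · exact Or.inr (by omega)
    · rintro (h5 | h5)
      · exact Or.inl (by rw [h5]; rfl)
      · exact Or.inr (by omega)
  have hc' : X.IsCentre q' p' := fun a => ⟨hq'nn a, hPeq a⟩
  obtain ⟨p'', hp'', hring''⟩ := hq'
  have heq : q' = q := DVal.ext_ring fun x hx => by
    have h4 := hring'' x hx
    have h5 := loc_le_of_centres X q' p'' p' hp'' hc' x h4
    exact X.loc_le_of_isCentre q p' hp' x h5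
  rw [heq] at hneg
  omega

end Pool.Agent.LibCov80
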