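import Pool.Agent.LibCov80.Defs
import Pool.Agent.LibGMM.Api
import Pool.Agent.LibGMC.Alg

/-! Restriction of discrete valuations to a subfield over which the field is algebraic. -/

open scoped Classical

namespace Pool.Agent.LibCov80

open Pool.Agent.LibGMM Pool.Agent.LibGMC

variable {k : Type} [Field k] [Algebra ℂ k] {K : Type} [Field K] [Algebra ℂ K] [Algebra k K]
  [IsScalarTower ℂ k K]

/-- The restriction of the valuation `Q` of `K` to `k` is `e` times the valuation `q`. -/
structure Over (Q : DVal K) (q : DVal k) (e : ℕ) : Prop where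
  pos : 0 < e
  ord : ∀ x : k, Q.ord (algebraMap k K x) = e * q.ord x

omit [Algebra ℂ k] [IsScalarTower ℂ k K] in
theorem exists_ord_ne_zero [Algebra.IsAlgebraic k K] (Q : DVal K) :
    ∃ x : k, Q.ord (algebraMap k K x) ≠ 0 := by
  by_contra hcon
  push Not at hcon
  obtain ⟨t, ht⟩ := Q.exists_ord_one
  have ht0 : t ≠ 0 := by rintro rfl; rw [Q.ord_zero] at ht; exact zero_ne_one ht
  obtain ⟨p, hp0, hp⟩ := Algebra.IsAlgebraic.isAlgebraic (R := k) t
  -- divide by the smallest power
  have key : ∀ (n : ℕ) (p : Polynomial k), p.natDegree ≤ n → p ≠ 0 → Polynomial.aeval t p ≠ 0 := by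
    intro n
    induction n with
    | zero =>
      intro p hn hp h
      rw [Polynomial.eq_C_of_natDegree_le_zero hn] at h hp
      rw [Polynomial.aeval_C] at h
      apply hp
      rw [(map_eq_zero _).1 h, map_zero]
    | succ n ih =>
      intro p hn hp h
      by_cases h0 : p.coeff 0 = 0
      · obtain ⟨q, rfl⟩ := Polynomial.X_dvd_iff.2 h0
        have hq : q ≠ 0 := by rintro rfl; simp at hp
        have hnq : q.natDegree ≤ n := by
          rw [Polynomial.natDegree_X_mul hq] at hn; omega
        rw [map_mul, Polynomial.aeval_X] at h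
        exact ih q hnq hq ((mul_eq_zero.1 h).resolve_left ht0)
      · have h1 : Polynomial.aeval t p = algebraMap k K (p.coeff 0) +
            t * Polynomial.aeval t p.divX := by
          conv_lhs => rw [← Polynomial.divX_mul_X_add p]
          rw [map_add, map_mul, Polynomial.aeval_X, Polynomial.aeval_C]
          ring
        have hge : ∀ q : Polynomial k, Polynomial.aeval t q = 0 ∨
            0 ≤ Q.ord (Polynomial.aeval t q) := by
          intro q
          by_cases hq : Polynomial.aeval t q = 0
          · exact Or.inl hq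
          right
          have : Polynomial.aeval t q ∈ Q.toVal := by
            rw [Polynomial.aeval_eq_sum_range]
            refine sum_mem fun i _ => ?_
            rw [Algebra.smul_def]
            refine Q.toVal.mul_mem _ _ ?_ (pow_mem ?_ i)
            · rw [Q.mem_toVal, hcon]
            · rw [Q.mem_toVal, ht]; exact zero_le_one
          exact (Q.mem_toVal).1 this
        have ha : algebraMap k K (p.coeff 0) ≠ 0 := (map_ne_zero _).2 h0
        have hlt : t * Polynomial.aeval t p.divX = 0 ∨ Q.ord (algebraMap k K (p.coeff 0)) <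
            Q.ord (t * Polynomial.aeval t p.divX) := by
          rcases hge p.divX with h2 | h2
          · left; rw [h2, mul_zero]
          · by_cases h3 : Polynomial.aeval t p.divX = 0
            · left; rw [h3, mul_zero]
            right
            rw [Q.ord_mul' ht0 h3, hcon, ht]
            omega
        have h4 := Q.ord_add_eq ha hlt
        rw [← h1, h, Q.ord_zero] at h4
        rcases hlt with h5 | h5
        · rw [h5, add_zero] at h1
          rw [h] at h1
          exact ha h1.symm
        · by_cases h6 : t * Polynomial.aeval t p.divX = 0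
          · rw [h6, add_zero, h] at h1
            exact ha h1.symm
          · have h7 : algebraMap k K (p.coeff 0) = - (t * Polynomial.aeval t p.divX) := by
              rw [h] at h1
              linear_combination -h1
            rw [h7, Q.ord_neg] at h5
            exact lt_irrefl _ h5
  exact key _ p le_rfl hp0 hp

theorem exists_over [Algebra.IsAlgebraic k K] (Q : DVal K) : ∃ (q : DVal k) (e : ℕ), Over Q q e := by
  -- the smallest positive value
  obtain ⟨x₀, hx₀⟩ := exists_ord_ne_zero (k := k) Q
  have hex : ∃ n : ℕ, 0 < n ∧ ∃ x : k, Q.ord (algebraMap k K x) = n := by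
    rcases lt_or_gt_of_ne hx₀ with h | h
    · refine ⟨(Q.ord (algebraMap k K x₀⁻¹)).toNat, ?_, x₀⁻¹, ?_⟩
      · rw [map_inv₀, Q.ord_inv]; omega
      · rw [Int.toNat_of_nonneg]
        rw [map_inv₀, Q.ord_inv]; omega
    · exact ⟨(Q.ord (algebraMap k K x₀)).toNat, by omega, x₀, by omega⟩
  obtain ⟨hpos, t, ht⟩ := Nat.find_spec hex
  set e := Nat.find hex with he
  have hmin := fun n (hn : n < e) => Nat.find_min hex hn
  have ht0 : algebraMap k K t ≠ 0 := by
    intro h; rw [h, Q.ord_zero] at ht; omega
  have hdvd : ∀ x : k, (e : ℤ) ∣ Q.ord (algebraMap k K x) := by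
    intro x
    by_cases hx : x = 0
    · rw [hx, map_zero, Q.ord_zero]; exact dvd_zero _
    have hx' : algebraMap k K x ≠ 0 := (map_ne_zero _).2 hx
    rw [Int.dvd_iff_emod_eq_zero]
    by_contra hne
    set n := Q.ord (algebraMap k K x) with hn
    have h1 : 0 ≤ n % e := Int.emod_nonneg _ (by omega)
    have h2 : n % e < e := Int.emod_lt_of_pos _ (by omega)
    refine hmin (n % e).toNat (by omega) ⟨by omega, x * t ^ (-(n / e)), ?_⟩
    rw [map_mul, map_zpow₀, Q.ord_mul' hx' (zpow_ne_zero _ ht0), Q.ord_zpow, ht, ← hn,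
      Int.toNat_of_nonneg h1]
    have h3 := Int.emod_add_mul_ediv n e
    linarith [mul_comm (e : ℤ) (n / e)]
  refine ⟨⟨fun x => Q.ord (algebraMap k K x) / e, ?_, ?_, ?_, ?_, ?_⟩, e, hpos, ?_⟩
  · simp [Q.ord_zero]
  · intro a b ha hb
    beta_reduce
    rw [map_mul, Q.ord_mul' ((map_ne_zero _).2 ha) ((map_ne_zero _).2 hb),
      Int.add_ediv_of_dvd_left (hdvd a)]
  · intro a b ha hb hab
    have h1 := Q.ord_add (algebraMap k K a) (algebraMap k K b) ((map_ne_zero _).2 ha)
      ((map_ne_zero _).2 hb) (by rw [← map_add]; exact (map_ne_zero _).2 hab)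
    rw [← map_add] at h1
    beta_reduce
    have he' : (0 : ℤ) ≤ e := by omega
    rcases min_le_iff.1 h1 with h | h
    · exact (min_le_left _ _).trans (Int.ediv_le_ediv (by omega) h)
    · exact (min_le_right _ _).trans (Int.ediv_le_ediv (by omega) h)
  · intro c
    beta_reduce
    rw [← IsScalarTower.algebraMap_apply, Q.ord_const, Int.zero_ediv]
  · exact ⟨t, by beta_reduce; rw [ht]; exact Int.ediv_self (by omega)⟩
  · intro x
    exact (Int.mul_ediv_cancel' (hdvd x)).symm

omit [IsScalarTower ℂ k K] in
theorem Over.nonneg_iff {Q : DVal K} {q : DVal k} {e : ℕ} (h : Over Q q e) (x : k) :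
    0 ≤ Q.ord (algebraMap k K x) ↔ 0 ≤ q.ord x := by
  rw [h.ord]
  have := h.pos
  constructor
  · intro h1
    by_contra h2
    push Not at h2
    have : (e : ℤ) * q.ord x < 0 := mul_neg_of_pos_of_neg (by exact_mod_cast this) h2
    omega
  · intro h1
    positivity

omit [IsScalarTower ℂ k K] in
/-- The valuation `q` below `Q` is unique. -/
theorem Over.unique {Q : DVal K} {q q' : DVal k} {e e' : ℕ} (h : Over Q q e) (h' : Over Q q' e') :
    q = q' := by
  refine DVal.ext_ring fun x hx => ?_
  rw [← h'.nonneg_iff, h.nonneg_iff]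
  exact hx

/-- The real combination `f` of rational functions on `X` as one on the cover. -/
noncomputable def upF (f : kˣ →₀ ℝ) : Kˣ →₀ ℝ := f.mapDomain (upU K)

omit [IsScalarTower ℂ k K] in
theorem Over.ordR_up {Q : DVal K} {q : DVal k} {e : ℕ} (h : Over Q q e) (f : kˣ →₀ ℝ) :
    ordR Q (upF f) = e * ordR q f := by
  unfold ordR upF
  rw [Finsupp.sum_mapDomain_index (by simp) (by intros; ring), Finsupp.sum, Finsupp.sum,
    Finset.mul_sum]
  refine Finset.sum_congr rfl fun u _ => ?_
  have h1 : Q.ord ((upU K u : Kˣ) : K) = e * q.ord u := h.ord u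
  rw [h1]
  push_cast
  ring

omit [IsScalarTower ℂ k K] in
theorem Over.sys_up {Q : DVal K} {q : DVal k} {e : ℕ} (h : Over Q q e) (G : Finset kˣ) :
    sys Q (up K G) = e * sys q G := by
  unfold sys
  rw [mul_neg, neg_inj, Real.mul_iInf_of_nonneg (by positivity)]
  have h1 : ∀ u : kˣ, (Q.ord ((upU K u : Kˣ) : K) : ℝ) = e * (q.ord (u : k) : ℝ) := by
    intro u
    have h2 : Q.ord ((upU K u : Kˣ) : K) = e * q.ord u := h.ord u
    rw [h2]; push_cast; ring
  have hsurj : Function.Surjective (fun u : {u // u ∈ G} =>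
      (⟨upU K u.1, Finset.mem_image_of_mem _ u.2⟩ : {u // u ∈ up K G})) := by
    rintro ⟨v, hv⟩
    obtain ⟨u, hu, rfl⟩ := Finset.mem_image.1 hv
    exact ⟨⟨u, hu⟩, rfl⟩
  rw [← hsurj.iInf_comp]
  exact iInf_congr fun u => h1 u.1

end Pool.Agent.LibCov80
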